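import Pool.Agent.MP_4b8552_co.H92.Gadget

/-! The contracted system and the price accounting. -/

namespace Pool.Agent.MP_4b8552_co.H92

open Finset H88
open scoped Classical

noncomputable section

variable {n t : ℕ} {μ : Ed (Fin n) → ℕ} {F : Finset (Gd n)} {g : Gd n} {i : Fin 3} {v : Fin n}

def own (F : Finset (Gd n)) (i : Fin 3) (v : Fin n) : Option (Gd n) :=
  if h : ∃ g ∈ F, mem g i v then some h.choose else none

lemma own_some (h : own F i v = some g) : g ∈ F ∧ mem g i v := by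
  unfold own at h
  split_ifs at h with h'
  obtain rfl := Option.some.inj h
  exact h'.choose_spec

lemma own_eq (hD : Dis F) (hg : g ∈ F) (h : mem g i v) : own F i v = some g := by
  have h' : ∃ g ∈ F, mem g i v := ⟨g, hg, h⟩
  rw [own, dif_pos h', hD _ h'.choose_spec.1 g hg i v h'.choose_spec.2 h]

def ok (F : Finset (Gd n)) (f : Ed (Fin n)) : Prop := ∀ g ∈ F, ¬del g f

def x2 (t : ℕ) (μ : Ed (Fin n) → ℕ) (F : Finset (Gd n)) (f : Ed (Fin n)) : ℝ :=
  xx t μ f * ind (ok F f)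

lemma S_x2 (c : Ed (Fin n) → ℝ) : S (x2 t μ F) c = S (xx t μ) fun f => ind (ok F f) * c f := by
  simp [S, x2, mul_assoc]

lemma wt_x2 {A B : Ed (Fin n) → Prop} (h : ∀ f, ok F f → A f → B f) :
    wt (x2 t μ F) A ≤ wt (xx t μ) B := by
  rw [wt, S_x2]
  refine S_le (xx_nonneg t μ) fun f _ => ?_
  by_cases a : ok F f ∧ A f
  · rw [ind_pos a.1, ind_pos a.2, ind_pos (h f a.1 a.2), one_mul]
  · rcases not_and_or.1 a with a | a <;> simp [ind_neg a, ind_nonneg]

lemma x2_pos {f : Ed (Fin n)} (h : 0 < x2 t μ F f) : 0 < μ f ∧ ok F f := by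
  refine ⟨Nat.pos_of_ne_zero fun a => ?_, by_contra fun a => ?_⟩
  · simp [x2, xx, a] at h
  · simp [x2, ind_neg a] at h

def pre (hr : Regular t μ) (ht : 10 ^ 6 ≤ t) (hD : Dis F) (hG : ∀ g ∈ F, Good t μ F g)
    (hM : ∀ g, Good t μ F g → ∃ g' ∈ F, ∃ i v, mem g i v ∧ mem g' i v) : Pre (Fin n) (Gd n) where
  own := own F
  ex := exp t μ
  x := x2 t μ F
  hx f := mul_nonneg (xx_nonneg t μ f) (ind_nonneg _)
  load i v := (wt_x2 fun _ _ h => h).trans_eq (load_eq hr (by omega) i v)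
  sload g := by
    by_cases h : g ∈ F
    · exact (wt_x2 fun f a ⟨i, b⟩ => ⟨⟨i, (own_some b).2⟩, a g h⟩).trans (ext_load hr ht (hG g h)).1
    · exact (wt_x2 (B := fun _ => False) fun f _ ⟨i, b⟩ => h (own_some b).1).trans
        (by rw [wt_zero (xx_nonneg t μ) fun _ _ => id]; norm_num)
  xload g hg := by
    by_cases h : g ∈ F
    · exact (wt_x2 fun f a ⟨i, b⟩ => ⟨⟨i, (own_some b).2⟩, a g h⟩).trans
        ((ext_load hr ht (hG g h)).2 hg)
    · exact (wt_x2 (B := fun _ => False) fun f _ ⟨i, b⟩ => h (own_some b).1).trans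
        (by rw [wt_zero (xx_nonneg t μ) fun _ _ => id]; norm_num)
  NF a b ha hb h := by
    refine (wt_x2 (B := FE (a, b)) fun _ _ h => h).trans (le_of_not_ge fun c => ?_)
    obtain ⟨g, hg, i, v, rfl | rfl, d⟩ := hM (a, b) (Or.inl ⟨h, c⟩)
    exacts [by simpa [ha i] using own_eq hD hg d, by simpa [hb i] using own_eq hD hg d]
  NT a ha := by
    refine (wt_x2 (B := fun f => ∃ c, Row t μ F a c f) ?_).trans (le_of_not_ge fun c => ?_)
    · rintro f - ⟨⟨k, g, b1, b2, -⟩, i, b3⟩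
      have : f k ≠ a k := fun e => by simp [e, ha k] at b1
      obtain rfl : k = i := by by_contra e; exact this (b3 k e)
      exact ⟨k, this, b3, g, (own_some b1).1, b2, (own_some b1).2⟩
    · obtain ⟨g, hg, i, v, rfl | rfl, d⟩ := hM (a, a) (Or.inr ⟨rfl, c⟩)
      exacts [by simpa [ha i] using own_eq hD hg d, by simpa [ha i] using own_eq hD hg d]

lemma account (hr : Regular t μ) (ht : 10 ^ 6 ≤ t) (hc : copies t μ = ∅) (hD : Dis F)
    (hG : ∀ g ∈ F, Good t μ F g) {D : ℕ} (hp : (Even t ∧ D = t + 1) ∨ (Odd t ∧ D = t)) :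
    (1 + 1 / D) * ((n : ℝ) / 2) ≤ F.card + (1 + 1 / D) * S (x2 t μ F) (base (own F) (exp t μ)) := by
  have hx := xx_nonneg t μ
  have ht0 : 0 < t := by omega
  have t1 : (10 : ℝ) ^ 6 ≤ t := by exact_mod_cast ht
  have t2 : (t : ℝ) ≤ D := by exact_mod_cast (show t ≤ D by omega)
  have t3 : (D : ℝ) ≤ t + 1 := by exact_mod_cast (show D ≤ t + 1 by omega)
  have t4 : (0 : ℝ) < t := by positivity
  have t5 : (0 : ℝ) < D := by linarith
  obtain ⟨a, ha⟩ : ∃ a : ℝ, a = (1 + 1 / D) / 6 := ⟨_, rfl⟩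
  obtain ⟨b, hb⟩ : ∃ b : ℝ, b = t / (3 * D) := ⟨_, rfl⟩
  have a0 : 0 ≤ a := by rw [ha]; positivity
  have ab : a ≤ b := by rw [ha, hb, le_div_iff₀ (by positivity)]; field_simp; linarith
  have b1 : b ≤ 2 * a := by rw [ha, hb, div_le_iff₀ (by positivity)]; field_simp; linarith
  obtain ⟨w, hw⟩ : ∃ w : Gd n → ℝ, w = fun g => if exp t μ g then b else 0 := ⟨_, rfl⟩
  have w0 : ∀ g, 0 ≤ w g ∧ w g ≤ b := fun g => by
    simp only [hw]; split_ifs <;> constructor <;> linarith
  have id1 : ∀ i v, a + ∑ g ∈ F, ind (mem g i v) * (w g - a) = (own F i v).elim a w := by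
    intro i v
    rcases h : own F i v with _ | g
    · rw [sum_eq_zero fun g hg => by rw [ind_neg fun m => by simp [own_eq hD hg m] at h, zero_mul]]
      simp
    · obtain ⟨h1, h2⟩ := own_some h
      rw [sum_eq_single_of_mem g h1 fun g' hg' e => by
        rw [ind_neg fun m => e (hD _ hg' _ h1 i v m h2), zero_mul], ind_pos h2]
      simp
  have le1 : ∀ o : Option (Gd n), o.elim a w ≤ b ∧ o.elim a w ≤ 6 * a * om (exp t μ) o := by
    rintro (_ | g)
    · exact ⟨ab, by simp only [om, Option.elim]; linarith⟩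
    · refine ⟨(w0 g).2, ?_⟩
      simp only [om, Option.elim, hw]; split_ifs <;> linarith
  have h1 := S_le hx (a := fun f => 3 * a * 1 + ∑ g ∈ F, ((w g - a) * cnt g f -
      (3 * b * ind (g.1 ≠ g.2 ∧ FE g f) + (b + 2 * w g) * ind (g.1 = g.2 ∧ Pr g.1 f) +
        3 * w g * ind (g.1 = g.2 ∧ f = g.1))))
      (b := fun f => 6 * a * (ind (ok F f) * base (own F) (exp t μ) f)) (by
    intro f _
    have nn : ∀ g ∈ F, 0 ≤ 3 * b * ind (g.1 ≠ g.2 ∧ FE g f) +
        (b + 2 * w g) * ind (g.1 = g.2 ∧ Pr g.1 f) + 3 * w g * ind (g.1 = g.2 ∧ f = g.1) := by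
      intro g _
      have := w0 g
      have := ind_nonneg (g.1 ≠ g.2 ∧ FE g f)
      have := ind_nonneg (g.1 = g.2 ∧ Pr g.1 f)
      have := ind_nonneg (g.1 = g.2 ∧ f = g.1)
      have : 0 ≤ b := by linarith
      have : 0 ≤ w g := (w0 g).1
      positivity
    have e1 : 3 * a * 1 + ∑ g ∈ F, (w g - a) * cnt g f = ∑ i, (own F i (f i)).elim a w := by
      simp only [← id1, sum_add_distrib, cnt, mul_sum, mul_comm (w _ - a)]
      rw [sum_comm]; simp [sum_mul]
    rw [sum_sub_distrib, ← add_sub_assoc, e1]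
    by_cases h : ok F f
    · rw [ind_pos h, one_mul, base, mul_sum]
      linarith [sum_nonneg nn, sum_le_sum fun i (_ : i ∈ univ) => (le1 (own F i (f i))).2]
    rw [ind_neg h, zero_mul, mul_zero, sub_nonpos]
    obtain ⟨g, hg, hd⟩ : ∃ g ∈ F, del g f := by simpa [ok] using h
    refine le_trans ?_ (single_le_sum nn hg)
    rcases hd with hd | ⟨h1, c, h2⟩
    · rw [ind_pos hd, ind_neg fun e => hd.1 e.1, ind_neg fun e => hd.1 e.1, Fin.sum_univ_three]
      linarith [(le1 (own F 0 (f 0))).1, (le1 (own F 1 (f 1))).1, (le1 (own F 2 (f 2))).1]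
    · obtain ⟨p, q, d1, d2, d3⟩ := others c
      rw [ind_neg fun e => e.1 h1, sum3 d1 d2 d3, own_eq hD hg (Or.inl (h2 p d2.symm)),
        own_eq hD hg (Or.inl (h2 q d3.symm))]
      by_cases h3 : f c = g.1 c
      · rw [own_eq hD hg (Or.inl h3), ind_neg fun ⟨_, k, e, e'⟩ => e (if e'' : k = c then e'' ▸ h3
          else h2 k e''), ind_pos (p := _ ∧ _) ⟨h1, funext fun k => if e : k = c then e ▸ h3 else h2 k e⟩]
        simp only [Option.elim]; linarith
      · rw [ind_pos (p := _ ∧ Pr _ _) ⟨h1, c, h3, h2⟩, ind_neg fun e => h3 (by rw [e.2])]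
        simp only [Option.elim_some]; linarith [(le1 (own F c (f c))).1])
  rw [S_add, S_mul, S_mul, S_one hr ht0, S_sum, ← S_x2] at h1
  have h2 : ∀ g ∈ F, -1 ≤ S (xx t μ) fun f => (w g - a) * cnt g f -
      (3 * b * ind (g.1 ≠ g.2 ∧ FE g f) + (b + 2 * w g) * ind (g.1 = g.2 ∧ Pr g.1 f) +
        3 * w g * ind (g.1 = g.2 ∧ f = g.1)) := by
    intro g hg
    simp only [S_sub, S_add, S_mul, S_ind]
    change _ ≤ _ * S _ (cnt g) - _
    rcases hG g hg with ⟨h, -⟩ | ⟨h, -⟩
    · have e : g.1 ≠ g.2 := fun e => h 0 (by rw [e])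
      have e1 : w g = b := by rw [hw]; exact if_pos (Or.inl e)
      have e2 := (wt_mono hx (A := fun f => g.1 ≠ g.2 ∧ FE g f) fun _ _ h => h.2).trans
        (FE_facts hr ht0 hc h).1
      rw [(S_cnt hr ht0 g).1 h, wt_zero hx (A := fun f => g.1 = g.2 ∧ _) fun _ _ h => e h.1,
        wt_zero hx (A := fun f => g.1 = g.2 ∧ _) fun _ _ h => e h.1, e1]
      have e3 : 3 * b * (2 - 1 / t) + 6 * a = 6 * b + 1 := by rw [ha, hb]; field_simp; ring
      nlinarith
    · have e := ext_T hr ht0 h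
      have e0 := wt_nonneg hx (ext g)
      have e1 : exp t μ g ↔ 2 * wt (xx t μ) (Pr g.1) + 1 / t = 3 := or_iff_right (not_not.2 h)
      rw [(S_cnt hr ht0 g).2 h, wt_zero hx (A := fun f => g.1 ≠ g.2 ∧ _) fun _ _ e => e.1 h]
      simp only [h.symm ▸ (eq_self g.1), true_and, show (g.1 = g.2) = True from eq_true h]
      change _ ≤ _ - (_ + _ * wt _ (Pr g.1) + _)
      rw [wt_xx (Pr g.1)] at e e1 ⊢
      rw [wt_xx fun f => f = g.1] at e ⊢
      generalize ∑ f with Pr g.1 f, μ f = P at *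
      generalize ∑ f with f = g.1, μ f = d at *
      have e2 : 3 * d + 2 * P ≤ 3 * t := by
        have : 3 * ((d : ℝ) / t) + 2 * (P / t) ≤ 3 := by linarith
        field_simp at this
        exact_mod_cast this
      have e3 : exp t μ g ↔ 2 * P + 1 = 3 * t := by
        rw [e1]
        field_simp
        rw [mul_comm 3 t]
        exact_mod_cast Iff.rfl
      by_cases he : exp t μ g
      · have e4 := e3.1 he
        obtain rfl : d = 0 := by omega
        obtain rfl : D = t := by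
          rcases hp with ⟨⟨k, h⟩, -⟩ | h
          exacts [by omega, h.2]
        have e5 : (P : ℝ) = (3 * D - 1) / 2 := by
          have : (2 : ℝ) * P + 1 = 3 * D := by exact_mod_cast e4
          linarith
        simp only [hw, if_pos he, ha, hb, e5]
        apply le_of_eq; field_simp; ring
      · have e4 : 2 * P + 3 ≤ 3 * D := by
          rcases hp with ⟨-, h⟩ | ⟨⟨k, h⟩, h'⟩
          exacts [by omega, by rw [e3] at he; omega]
        have e5 : (2 : ℝ) * P + 3 ≤ 3 * D := by exact_mod_cast e4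
        simp only [hw, if_neg he, ha, hb]
        rw [← sub_nonneg]
        have : (0 - (1 + 1 / (D : ℝ)) / 6) * 3 - (3 * ((t : ℝ) / (3 * D)) * 0 +
            (t / (3 * D) + 2 * 0) * (P / t) + 3 * 0 * (d / t)) - -1 = (3 * D - 2 * P - 3) / (6 * D) := by
          field_simp; ring
        rw [this]
        exact div_nonneg (by linarith) (by positivity)
  have h3 := sum_le_sum h2
  simp only [sum_const, nsmul_eq_mul] at h3
  rw [show 1 + 1 / (D : ℝ) = 6 * a by rw [ha]; ring]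
  linarith

end

end Pool.Agent.MP_4b8552_co.H92
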