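import Mathlib

/-! Weighted tripartite systems with contracted super-vertices: sums, conflicts, local optimum. -/

namespace Pool.Agent.MP_4b8552_co.H92

open Finset
open scoped Classical

noncomputable section

abbrev Ed (V : Type) := Fin 3 → V

/-- Real indicator. -/
def ind (p : Prop) : ℝ := if p then 1 else 0

lemma ind_pos {p : Prop} (h : p) : ind p = 1 := if_pos h
lemma ind_neg {p : Prop} (h : ¬p) : ind p = 0 := if_neg h
lemma ind_nonneg (p : Prop) : 0 ≤ ind p := by unfold ind; split_ifs <;> norm_num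
lemma ind_le_one (p : Prop) : ind p ≤ 1 := by unfold ind; split_ifs <;> norm_num

lemma sum3 {p q c : Fin 3} (h1 : p ≠ q) (h2 : c ≠ p) (h3 : c ≠ q) (F : Fin 3 → ℝ) :
    ∑ i, F i = F p + F q + F c := by
  rw [Fin.sum_univ_three]
  fin_cases p <;> fin_cases q <;> fin_cases c <;> simp at h1 h2 h3 ⊢ <;> ring

lemma third : ∀ p q : Fin 3, p ≠ q → ∃ c, c ≠ p ∧ c ≠ q := by decide
lemma third_eq : ∀ p q c d : Fin 3, p ≠ q → c ≠ p → c ≠ q → d ≠ p → d ≠ q → c = d := by decide
lemma others : ∀ c : Fin 3, ∃ p q, p ≠ q ∧ c ≠ p ∧ c ≠ q := by decide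
lemma tri : ∀ p q c : Fin 3, p ≠ q → c ≠ p → c ≠ q → ∀ i, i = p ∨ i = q ∨ i = c := by decide

section sums
variable {V : Type} [Fintype V] (x : Ed V → ℝ)

/-- Weighted sum over edges. -/
def S (c : Ed V → ℝ) : ℝ := ∑ f, x f * c f

/-- Weight of a set of edges. -/
def wt (A : Ed V → Prop) : ℝ := S x fun f => ind (A f)

lemma S_add (a b : Ed V → ℝ) : S x (fun f => a f + b f) = S x a + S x b := by
  simp [S, mul_add, sum_add_distrib]

lemma S_sub (a b : Ed V → ℝ) : S x (fun f => a f - b f) = S x a - S x b := by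
  simp [S, mul_sub, sum_sub_distrib]

lemma S_mul (r : ℝ) (a : Ed V → ℝ) : S x (fun f => r * a f) = r * S x a := by
  simp only [S, mul_sum]; exact sum_congr rfl fun f _ => by ring

lemma S_sum {ι : Type} (s : Finset ι) (a : ι → Ed V → ℝ) :
    S x (fun f => ∑ i ∈ s, a i f) = ∑ i ∈ s, S x (a i) := by
  simp only [S, mul_sum]; exact sum_comm

lemma S_ind (A : Ed V → Prop) : S x (fun f => ind (A f)) = wt x A := rfl

variable {x} (hx : ∀ f, 0 ≤ x f)
include hx

lemma S_le {a b : Ed V → ℝ} (h : ∀ f, 0 < x f → a f ≤ b f) : S x a ≤ S x b :=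
  sum_le_sum fun f _ => by
    rcases (hx f).eq_or_lt with h0 | h0
    · simp [← h0]
    · exact mul_le_mul_of_nonneg_left (h f h0) h0.le

lemma wt_nonneg (A : Ed V → Prop) : 0 ≤ wt x A :=
  sum_nonneg fun f _ => mul_nonneg (hx f) (ind_nonneg _)

lemma wt_or {A B C : Ed V → Prop} (h : ∀ f, 0 < x f → A f → B f ∨ C f) :
    wt x A ≤ wt x B + wt x C := by
  rw [wt, wt, wt, ← S_add]
  refine S_le hx fun f hf => ?_
  have := ind_nonneg (B f); have := ind_nonneg (C f)
  by_cases hA : A f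
  · rcases h f hf hA with h | h <;> simp only [ind_pos h, ind_pos hA] <;> linarith
  · rw [ind_neg hA]; linarith

lemma wt_zero {A : Ed V → Prop} (h : ∀ f, 0 < x f → ¬A f) : wt x A = 0 := by
  refine le_antisymm ?_ (wt_nonneg hx A)
  have : S x (fun _ => 0) = 0 := by simp [S]
  rw [← this]
  exact S_le hx fun f hf => (ind_neg (h f hf)).le

lemma wt_mono {A B : Ed V → Prop} (h : ∀ f, 0 < x f → A f → B f) : wt x A ≤ wt x B := by
  have := wt_or hx (A := A) (B := B) (C := fun _ => False) fun f hf hA => Or.inl (h f hf hA)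
  rwa [wt_zero hx (A := fun _ => False) (fun _ _ h => h), add_zero] at this

lemma wt_disj {A B C : Ed V → Prop} (hA : ∀ f, 0 < x f → A f → C f)
    (hB : ∀ f, 0 < x f → B f → C f) (h : ∀ f, 0 < x f → A f → B f → False) :
    wt x A + wt x B ≤ wt x C := by
  rw [wt, wt, wt, ← S_add]
  refine S_le hx fun f hf => ?_
  have := ind_nonneg (C f)
  by_cases a : A f
  · rw [ind_pos a, ind_neg (h f hf a), ind_pos (hA f hf a)]; norm_num
  · by_cases b : B f
    · rw [ind_neg a, ind_pos b, ind_pos (hB f hf b)]; norm_num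
    · rw [ind_neg a, ind_neg b]; linarith

lemma wt_disj3 {A B C D : Ed V → Prop} (hA : ∀ f, 0 < x f → A f → D f)
    (hB : ∀ f, 0 < x f → B f → D f) (hC : ∀ f, 0 < x f → C f → D f)
    (h1 : ∀ f, 0 < x f → A f → B f → False) (h2 : ∀ f, 0 < x f → A f → C f → False)
    (h3 : ∀ f, 0 < x f → B f → C f → False) : wt x A + wt x B + wt x C ≤ wt x D := by
  have a := wt_disj hx (A := A) (B := B) (C := fun f => A f ∨ B f) (fun _ _ => Or.inl)
    (fun _ _ => Or.inr) h1
  have b := wt_disj hx (A := fun f => A f ∨ B f) (B := C) (C := D)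
    (fun f hf h => h.elim (hA f hf) (hB f hf)) hC fun f hf h c => h.elim (h2 f hf · c) (h3 f hf · c)
  linarith

lemma ex_of_lt {A B : Ed V → Prop} (h : wt x B < wt x A) : ∃ f, A f ∧ ¬B f := by
  by_contra h'
  push Not at h'
  exact absurd (wt_mono hx fun f _ => h' f) h.not_ge

lemma wt_diff (A B : Ed V → Prop) : wt x A - wt x B ≤ wt x fun f => A f ∧ ¬B f := by
  have := wt_or hx (A := A) (B := B) (C := fun f => A f ∧ ¬B f) fun f _ h => by tauto
  linarith

lemma wt_single {A : Ed V → Prop} (g : Ed V) (h : ∀ f, A f → f = g) : wt x A ≤ x g := by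
  refine (wt_mono hx (B := fun f => f = g) fun f _ => h f).trans_eq ?_
  simp [wt, S, ind]

lemma le_wt {A : Ed V → Prop} {g : Ed V} (h : A g) : x g ≤ wt x A := by
  refine Eq.trans_le ?_ (wt_mono hx (A := fun f => f = g) fun f _ e => e ▸ h)
  simp [wt, S, ind]

lemma wt_ex3 (A : Fin 3 → Ed V → Prop) : wt x (fun f => ∃ i, A i f) ≤ ∑ i, wt x (A i) := by
  simp only [wt, ← S_sum]
  refine S_le hx fun f _ => ?_
  by_cases h : ∃ i, A i f
  · obtain ⟨i, hi⟩ := id h
    rw [ind_pos h, ← ind_pos hi]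
    exact single_le_sum (f := fun i => ind (A i f)) (fun i _ => ind_nonneg _) (mem_univ i)
  · rw [ind_neg h]; exact sum_nonneg fun i _ => ind_nonneg _

lemma ex_of_pos {A : Ed V → Prop} (h : 0 < wt x A) : ∃ f, A f := by
  by_contra h'
  exact h.ne' (wt_zero hx fun f _ a => h' ⟨f, a⟩)

lemma two_of_lt {A : Ed V → Prop} {r : ℝ} (hr : 0 ≤ r) (h : r < wt x A) (h' : ∀ g, A g → x g ≤ r) :
    ∃ f g, A f ∧ A g ∧ f ≠ g := by
  obtain ⟨f, hf⟩ := ex_of_pos hx (hr.trans_lt h)
  by_contra h1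
  push Not at h1
  linarith [wt_single hx f fun g hg => h1 g f hg hf, h' f hf]

lemma cross {A B : Ed V → Prop} {c c' : Fin 3} {z z' : V} {r : ℝ} (hr : 0 ≤ r)
    (hA : ∀ g, A g → g c = z ∧ x g ≤ r) (hB : ∀ g, B g → g c' = z' ∧ x g ≤ r)
    (h : ∀ g g', A g → B g' → ∃ m, m ≠ c ∧ m ≠ c' ∧ g m = g' m)
    (wA : 2 * r < wt x A) (wB : r < wt x B) :
    ∃ m v, m ≠ c ∧ m ≠ c' ∧ (∀ g, A g → g m = v) ∧ ∀ g, B g → g m = v := by
  obtain ⟨g0, h0⟩ := ex_of_pos hx (A := A) (by linarith)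
  obtain ⟨b1, b2, hb1, hb2, hb⟩ := two_of_lt hx hr wB fun g hg => (hB g hg).2
  rcases eq_or_ne c c' with rfl | hc
  · have star : ∀ {p q : Fin 3} {g1 g2 g : Ed V}, p ≠ q → c ≠ p → c ≠ q → g1 ≠ g2 → g1 c = g2 c →
        g1 p = g2 p → (∃ m, m ≠ c ∧ g1 m = g m) → (∃ m, m ≠ c ∧ g2 m = g m) → g p = g1 p := by
      rintro p q g1 g2 g h1 h2 h3 h4 h5 h6 ⟨m, h7, h8⟩ ⟨m', h9, h10⟩
      by_contra h11
      obtain rfl : q = m := third_eq p c q m h2.symm h1.symm h3.symm
        (fun e => h11 (e ▸ h8.symm)) h7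
      obtain rfl : q = m' := third_eq p c q m' h2.symm h1.symm h3.symm
        (fun e => h11 (by subst e; rw [h6, h10])) h9
      refine h4 (funext fun i => ?_)
      rcases tri p q c h1 h2 h3 i with rfl | rfl | rfl
      exacts [h6, h8.trans h10.symm, h5]
    have key : ∀ {p q : Fin 3} {v : V}, p ≠ q → c ≠ p → c ≠ q → r < wt x (fun g => A g ∧ g p = v) →
        ∃ m v, m ≠ c ∧ m ≠ c ∧ (∀ g, A g → g m = v) ∧ ∀ g, B g → g m = v := by
      intro p q v h1 h2 h3 h4
      obtain ⟨a1, a2, ha1, ha2, ha⟩ := two_of_lt hx hr h4 fun g hg => (hA g hg.1).2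
      have hBv : ∀ g, B g → g p = v := fun g hg => (star h1 h2 h3 ha
        ((hA _ ha1.1).1.trans (hA _ ha2.1).1.symm) (ha1.2.trans ha2.2.symm)
        ((h _ _ ha1.1 hg).imp fun _ h => ⟨h.1, h.2.2⟩)
        ((h _ _ ha2.1 hg).imp fun _ h => ⟨h.1, h.2.2⟩)).trans ha1.2
      refine ⟨p, v, h2.symm, h2.symm, fun g hg => (star h1 h2 h3 hb
        ((hB _ hb1).1.trans (hB _ hb2).1.symm) ((hBv _ hb1).trans (hBv _ hb2).symm)
        ((h _ _ hg hb1).imp fun _ h => ⟨h.1, h.2.2.symm⟩)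
        ((h _ _ hg hb2).imp fun _ h => ⟨h.1, h.2.2.symm⟩)).trans (hBv _ hb1), hBv⟩
    obtain ⟨p, q, h1, h2, h3⟩ := others c
    have := wt_or hx (A := A) (B := fun g => A g ∧ g p = b1 p) (C := fun g => A g ∧ g q = b1 q) (by
      intro g _ hg
      obtain ⟨m, h4, -, h5⟩ := h g b1 hg hb1
      rcases tri p q c h1 h2 h3 m with rfl | rfl | rfl
      exacts [Or.inl ⟨hg, h5⟩, Or.inr ⟨hg, h5⟩, absurd rfl h4])
    by_cases h4 : r < wt x fun g => A g ∧ g p = b1 p
    · exact key h1 h2 h3 h4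
    · exact key (v := b1 q) h1.symm h3 h2 (by linarith)
  · obtain ⟨m, h1, h2⟩ := third c c' hc
    have key : ∀ g g', A g → B g' → g m = g' m := fun g g' a b => by
      obtain ⟨m', h3, h4, h5⟩ := h g g' a b
      rwa [third_eq c c' m m' hc h1 h2 h3 h4]
    exact ⟨m, b1 m, h1, h2, fun g hg => key g b1 hg hb1,
      fun g hg => (key g0 g h0 hg).symm.trans (key g0 b1 h0 hb1)⟩

omit hx in
lemma wt_fib (A : Ed V → Prop) (l : Fin 3) : wt x A = ∑ u, wt x fun f => A f ∧ f l = u := by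
  simp only [wt, ← S_sum]
  congr 1
  ext f
  by_cases h : A f <;> simp [ind, h]

lemma wt_fiber {A B : Ed V → Prop} {bad : V → Prop} (l : Fin 3) {r : ℝ} (hr : 0 ≤ r)
    (h : ∀ u, bad u → wt x (fun f => B f ∧ f l = u) ≤ r * wt x fun f => A f ∧ f l = u) :
    wt x (fun f => B f ∧ bad (f l)) ≤ r * wt x A := by
  rw [wt_fib _ l, wt_fib A l, mul_sum]
  refine sum_le_sum fun u _ => ?_
  by_cases hu : bad u
  · exact le_trans (wt_mono hx fun f _ h => ⟨h.1.1, h.2⟩) (h u hu)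
  · rw [wt_zero hx (A := fun f => (B f ∧ bad (f l)) ∧ f l = u) fun f _ h => hu (h.2 ▸ h.1.2)]
    exact mul_nonneg hr (wt_nonneg hx _)

end sums

section defs
variable {V G : Type} (own : Fin 3 → V → Option G) (ex : G → Prop)

/-- Sharing a super-vertex. -/
def SS (e f : Ed V) : Prop := ∃ i j g, own i (e i) = some g ∧ own j (f j) = some g

/-- Conflict. -/
def Cf (e f : Ed V) : Prop := (∃ i, e i = f i) ∨ SS own e f

def T3 (f : Ed V) : Prop := ∀ i, own i (f i) = none

def T2 (f : Ed V) : Prop := ∃ i g, own i (f i) = some g ∧ ∀ j ≠ i, own j (f j) = none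

def TH (f : Ed V) : Prop := ∃ i g, own i (f i) = some g ∧ ex g ∧ ∀ j ≠ i, own j (f j) = none

def om (o : Option G) : ℝ := match o with
  | none => 1 / 6
  | some g => if ex g then 1 / 3 else 0

def base (f : Ed V) : ℝ := ∑ i, om ex (own i (f i))

def pri (f : Ed V) : ℝ :=
  if T3 own f then 100 else if TH own ex f then 170 else if T2 own f then 160 else 180

variable {own ex} {e f : Ed V}

lemma SS.symm (h : SS own e f) : SS own f e := by
  obtain ⟨i, j, g, a, b⟩ := h; exact ⟨j, i, g, b, a⟩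

lemma Cf.symm (h : Cf own e f) : Cf own f e :=
  h.imp (fun ⟨i, h⟩ => ⟨i, h.symm⟩) SS.symm

lemma TH.t2 (h : TH own ex f) : T2 own f := by
  obtain ⟨i, g, a, -, b⟩ := h; exact ⟨i, g, a, b⟩

lemma T2.not3 (h : T2 own f) : ¬T3 own f := by
  obtain ⟨i, g, a, -⟩ := h; intro h; simp [h i] at a

lemma T3.noSS (h : T3 own f) : ¬SS own f e := by
  rintro ⟨i, j, g, a, -⟩; simp [h i] at a

lemma T3.base (h : T3 own f) : base own ex f = 1 / 2 := by
  simp only [H92.base, h _, om, Fin.sum_univ_three]; norm_num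

lemma TH.base (h : TH own ex f) : base own ex f = 2 / 3 := by
  obtain ⟨i, g, a, b, c⟩ := h
  obtain ⟨p, q, h1, h2, h3⟩ := others i
  simp only [H92.base, sum3 h1 h2 h3, a, c p h2.symm, c q h3.symm, om, if_pos b]; norm_num

lemma T2.base (h : T2 own f) (h' : ¬TH own ex f) : base own ex f = 1 / 3 := by
  obtain ⟨i, g, a, c⟩ := h
  obtain ⟨p, q, h1, h2, h3⟩ := others i
  have b : ¬ex g := fun b => h' ⟨i, g, a, b, c⟩
  simp only [H92.base, sum3 h1 h2 h3, a, c p h2.symm, c q h3.symm, om, if_neg b]; norm_num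

lemma om_le (o : Option G) : om ex o ≤ 1 / 3 := by
  cases o <;> simp only [om]
  · norm_num
  · split_ifs <;> norm_num

lemma base_le : base own ex f ≤ 1 := by
  have := fun i => om_le (ex := ex) (own i (f i))
  simp only [H92.base, Fin.sum_univ_three]
  linarith [this 0, this 1, this 2]

lemma base_le' {i : Fin 3} (h : own i (f i) = none) : base own ex f ≤ 5 / 6 := by
  have := fun i => om_le (ex := ex) (own i (f i))
  obtain ⟨p, q, h1, h2, h3⟩ := others i
  simp only [H92.base, sum3 h1 h2 h3, h]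
  have : om ex (none : Option G) = 1 / 6 := rfl
  linarith [this, this, ‹∀ i, _› p, ‹∀ i, _› q]

lemma two_R {i j : Fin 3} (h : i ≠ j) (hi : own i (f i) = none) (hj : own j (f j) = none) :
    T3 own f ∨ T2 own f := by
  obtain ⟨c, h1, h2⟩ := third i j h
  rcases hc : own c (f c) with _ | g
  · refine Or.inl fun k => ?_
    rcases tri i j c h h1 h2 k with rfl | rfl | rfl <;> assumption
  · refine Or.inr ⟨c, g, hc, fun k hk => ?_⟩
    rcases tri i j c h h1 h2 k with rfl | rfl | rfl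
    exacts [hi, hj, absurd rfl hk]

lemma T3.pri (h : T3 own f) : pri own ex f = 100 := if_pos h

lemma TH.pri (h : TH own ex f) : pri own ex f = 170 := by
  rw [H92.pri, if_neg h.t2.not3, if_pos h]

lemma T2.pri (h : T2 own f) : 160 ≤ pri own ex f ∧ pri own ex f ≤ 170 := by
  rw [H92.pri, if_neg h.not3, if_pos h]; split_ifs <;> norm_num

lemma T2.pri' (h : T2 own f) (h' : ¬TH own ex f) : H92.pri own ex f = 160 := by
  rw [H92.pri, if_neg h.not3, if_pos h, if_neg h']

lemma pri_ge : 100 ≤ pri own ex f := by unfold pri; split_ifs <;> norm_num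

lemma pri_ge' (h : ¬T3 own f) : 160 ≤ pri own ex f := by
  rw [pri, if_neg h]; split_ifs <;> norm_num

lemma pri_low (h : ¬T3 own f) (h' : ¬T2 own f) : pri own ex f = 180 := by
  rw [pri, if_neg h, if_neg h', if_neg fun h => h' (TH.t2 h)]

end defs

/-- The hypotheses on the contracted system. -/
structure Pre (V G : Type) [Fintype V] where
  own : Fin 3 → V → Option G
  ex : G → Prop
  x : Ed V → ℝ
  hx : ∀ f, 0 ≤ x f
  load : ∀ i v, wt x (fun f => f i = v) ≤ 1
  sload : ∀ g, wt x (fun f => ∃ i, own i (f i) = some g) ≤ 1 / 250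
  xload : ∀ g, ex g → wt x (fun f => ∃ i, own i (f i) = some g) ≤ 1 / 10 ^ 6
  NF : ∀ a b : Ed V, T3 own a → T3 own b → (∀ i, a i ≠ b i) →
    wt x (fun f => f = a ∨ ∃ i, f = Function.update b i (a i)) ≤ 2 - 1 / (3 * 10 ^ 6)
  NT : ∀ a : Ed V, T3 own a →
    wt x (fun f => TH own ex f ∧ ∃ i, ∀ j ≠ i, f j = a j) ≤ 3 / 2 - 1 / 500

variable {V G : Type} [Fintype V]

def Pre.Free (P : Pre V G) (M : Finset (Ed V)) : Prop :=
  (∀ e ∈ M, 0 < P.x e) ∧ ∀ e ∈ M, ∀ f ∈ M, e ≠ f → ¬Cf P.own e f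

def Pre.val (P : Pre V G) (f : Ed V) : ℝ := pri P.own P.ex f + P.x f

/-- A system with an optimal conflict-free family. -/
structure Sys (V G : Type) [Fintype V] extends Pre V G where
  M : Finset (Ed V)
  free : toPre.Free M
  max : ∀ M', toPre.Free M' → ∑ f ∈ M', toPre.val f ≤ ∑ f ∈ M, toPre.val f

lemma Pre.exists_sys (P : Pre V G) : ∃ s : Sys V G, s.toPre = P := by
  obtain ⟨M, h1, h2⟩ := Set.exists_max_image {M | P.Free M} (fun M => ∑ f ∈ M, P.val f)
    (Set.toFinite _) ⟨∅, by simp [Pre.Free]⟩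
  exact ⟨⟨P, M, h1, h2⟩, rfl⟩

namespace Sys
variable (s : Sys V G)

def Rem (f : Ed V) : Prop := 0 < s.x f ∧ ∀ e ∈ s.M, ¬SS s.own f e

def Nb (f : Ed V) (D : List (Ed V)) : Prop := ∀ e ∈ s.M, ∀ i, f i = e i → e ∈ D

lemma x_le (f : Ed V) : s.x f ≤ 1 := (le_wt s.hx (A := fun g => g 0 = f 0) rfl).trans (s.load _ _)

lemma val_bd (f : Ed V) : pri s.own s.ex f ≤ s.val f ∧ s.val f ≤ pri s.own s.ex f + 1 := by
  have := s.hx f; have := s.x_le f
  unfold Pre.val; constructor <;> linarith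

lemma uniq {e e' : Ed V} (he : e ∈ s.M) (he' : e' ∈ s.M) {i : Fin 3} (h : e i = e' i) : e = e' := by
  by_contra hne
  exact s.free.2 e he e' he' hne (Or.inl ⟨i, h⟩)

lemma swap (N D : List (Ed V)) (hN : ∀ f ∈ N, s.Rem f ∧ s.Nb f D)
    (hp : N.Pairwise fun f g => ¬Cf s.own f g) : (N.map s.val).sum ≤ (D.map s.val).sum := by
  have hnd : N.Nodup := hp.imp fun {f g} h e => h (Or.inl ⟨0, by rw [e]⟩)
  have hc : ∀ f ∈ N, ∀ e ∈ s.M, e ∉ D → ¬Cf s.own f e := fun f hf e he hD h =>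
    h.elim (fun ⟨i, h⟩ => hD ((hN f hf).2 e he i h)) ((hN f hf).1.2 e he)
  have hdis : Disjoint (s.M.filter (· ∉ D)) N.toFinset := by
    rw [disjoint_left]
    intro e he hf
    rw [mem_filter] at he
    exact hc e (List.mem_toFinset.1 hf) e he.1 he.2 (Or.inl ⟨0, rfl⟩)
  have h1 := s.max (s.M.filter (· ∉ D) ∪ N.toFinset) ⟨?_, ?_⟩
  · rw [sum_union hdis, List.sum_toFinset _ hnd, ← sum_filter_add_sum_filter_not s.M (· ∉ D)] at h1
    have h0 : ∀ f, 0 ≤ s.val f := fun f => by linarith [(s.val_bd f).1, pri_ge (own := s.own) (ex := s.ex) (f := f)]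
    have h2 : ∑ f ∈ s.M.filter (¬ · ∉ D), s.val f ≤ ∑ f ∈ D.toFinset, s.val f :=
      sum_le_sum_of_subset_of_nonneg (fun f hf => by simpa using (mem_filter.1 hf).2) fun f _ _ => h0 f
    have h3 : ∀ D : List (Ed V), ∑ f ∈ D.toFinset, s.val f ≤ (D.map s.val).sum := by
      intro D
      induction D with
      | nil => simp
      | cons a D ih =>
        rw [List.toFinset_cons, List.map_cons, List.sum_cons]
        by_cases ha : a ∈ D.toFinset
        · rw [insert_eq_of_mem ha]; linarith [h0 a]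
        · rw [sum_insert ha]; linarith
    linarith [h3 D]
  · intro e he
    rcases mem_union.1 he with he | he
    exacts [s.free.1 e (mem_filter.1 he).1, (hN e (List.mem_toFinset.1 he)).1.1]
  · intro e he f hf hne
    rcases mem_union.1 he with he | he <;> rcases mem_union.1 hf with hf | hf
    · exact s.free.2 e (mem_filter.1 he).1 f (mem_filter.1 hf).1 hne
    · exact fun h => hc f (List.mem_toFinset.1 hf) e (mem_filter.1 he).1 (mem_filter.1 he).2 h.symm
    · exact hc e (List.mem_toFinset.1 he) f (mem_filter.1 hf).1 (mem_filter.1 hf).2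
    · haveI : Std.Symm fun f g => ¬Cf s.own f g := ⟨fun _ _ h h' => h h'.symm⟩
      exact hp.forall (List.mem_toFinset.1 he) (List.mem_toFinset.1 hf) hne

lemma wt_SS (g : Ed V) : wt s.x (fun f => SS s.own f g) ≤ 3 / 250 ∧
    (T3 s.own g → wt s.x (fun f => SS s.own f g) ≤ 0) ∧
    (T2 s.own g → wt s.x (fun f => SS s.own f g) ≤ 1 / 250) ∧
    (TH s.own s.ex g → wt s.x (fun f => SS s.own f g) ≤ 1 / 10 ^ 6) := by
  have h1 : ∀ {i : Fin 3} {a : G}, s.own i (g i) = some a → (∀ j ≠ i, s.own j (g j) = none) →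
      wt s.x (fun f => SS s.own f g) ≤ wt s.x fun f => ∃ i, s.own i (f i) = some a := by
    intro i a h1 h2
    refine wt_mono s.hx ?_
    rintro f - ⟨j, k, b, h3, h4⟩
    obtain rfl : k = i := by by_contra h; simp [h2 k h] at h4
    exact ⟨j, by rw [h3, ← h4, h1]⟩
  refine ⟨?_, fun h => (wt_zero s.hx fun f _ h' => h.noSS h'.symm).le,
    fun ⟨i, a, h2, h3⟩ => (h1 h2 h3).trans (s.sload a),
    fun ⟨i, a, h2, h3, h4⟩ => (h1 h2 h4).trans (s.xload a h3)⟩
  have h2 : ∀ j, wt s.x (fun f => ∃ i a, s.own i (f i) = some a ∧ s.own j (g j) = some a) ≤ 1 / 250 := by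
    intro j
    rcases h : s.own j (g j) with _ | a
    · rw [wt_zero s.hx (by simp)]; norm_num
    · refine (wt_mono s.hx ?_).trans (s.sload a)
      rintro f - ⟨i, b, h3, h4⟩
      exact ⟨i, by rw [h3, h4]⟩
  have h3 := wt_ex3 s.hx fun j f => ∃ i a, s.own i (f i) = some a ∧ s.own j (g j) = some a
  rw [Fin.sum_univ_three] at h3
  have h4 := wt_mono s.hx (A := fun f => SS s.own f g)
    (B := fun f => ∃ j i a, s.own i (f i) = some a ∧ s.own j (g j) = some a)
    fun f _ ⟨i, j, a, h⟩ => ⟨j, i, a, h⟩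
  linarith [h2 0, h2 1, h2 2]

end Sys

end

end Pool.Agent.MP_4b8552_co.H92
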