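import Pool.Agent.MP_4b8552_co.H92.Two

/-! The charging scheme. -/

namespace Pool.Agent.MP_4b8552_co.H92

open Finset
open scoped Classical

noncomputable section

variable {V G : Type} [Fintype V]

namespace Sys
variable (s : Sys V G)

def bb (e : Ed V) (i : Fin 3) : ℝ :=
  if ∑ j, s.hh e j - s.hh e i ≤ 1 / 4 then 1 / 3 + 1 / 100
  else if 4 / 5 ≤ ∑ j, s.hh e j then 1 / 3 - 1 / 100 else 1 / 3

def a3 (e : Ed V) (i : Fin 3) (f : Ed V) : ℝ :=
  if s.tight e ∧ ¬s.Exc e f then (if s.use e i then 1 / 4 else 1 / 4 - 1 / 3600) else 1 / 4 + 1 / 3600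

def share (e : Ed V) (i : Fin 3) (f : Ed V) : ℝ :=
  if T3 s.own f then s.a3 e i f
  else if TH s.own s.ex f then
    (if T3 s.own e then (if ∀ a ∈ s.M, ∀ k, f k = a k → T3 s.own a then 1 / 3 else 1 / 6 + 1 / 20)
    else if ∀ a ∈ s.M, ∀ k, f k = a k → ¬T3 s.own a then s.bb e i else 1 / 2 - 1 / 20)
  else 1 / 6

def kk (e f : Ed V) : ℝ := ∑ i, ind (f i = e i)

def ch (e f : Ed V) : ℝ :=
  if ¬s.Rm f ∨ ∀ i, f i ≠ e i then 0
  else if s.priv e f then base s.own s.ex f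
  else if ∀ i, s.cov i (f i) then kk e f / 6 else ∑ i, ind (f i = e i) * s.share e i f

variable {s} {e e' f g : Ed V} {i j l p q c : Fin 3}

lemma Sp.one (h : s.Sp f e i e' j l) {k : Fin 3} (hk : k ≠ i) : f k ≠ e k := fun a =>
  (h.nbr h.he a).elim (fun b => hk b.2) fun b => h.ne b.1

lemma Sp.ch (h : s.Sp f e i e' j l) : s.ch e f = s.share e i f := by
  rw [Sys.ch, if_neg (by simpa [h.rm] using ⟨i, h.hi⟩),
    if_neg fun a => h.one h.ij.symm (a j (cov_of h.he' h.hj)), if_neg fun a => h.unc (a l),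
    sum3 h.ij h.li h.lj, ind_pos h.hi, ind_neg (h.one h.ij.symm), ind_neg (h.one h.li)]
  ring

lemma ch_zero (h : ¬s.Rm f ∨ ∀ i, f i ≠ e i) : s.ch e f = 0 := if_pos h

lemma cls (s : Sys V G) (e f : Ed V) : ((¬s.Rm f ∨ ∀ i, f i ≠ e i) ∧ s.ch e f = 0) ∨
    (∃ i, s.P1 e i f ∧ s.ch e f = base s.own s.ex f) ∨
    (s.Rm f ∧ s.priv e f ∧ s.ch e f = base s.own s.ex f ∧ ∃ l, ∀ j ≠ l, f j = e j) ∨
    (s.Rm f ∧ (∀ i, s.cov i (f i)) ∧ ¬s.priv e f ∧ s.ch e f = kk e f / 6) ∨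
    (e ∈ s.M → ∃ i e' j l, s.Sp f e i e' j l) := by
  by_cases h0 : ¬s.Rm f ∨ ∀ i, f i ≠ e i
  · exact Or.inl ⟨h0, if_pos h0⟩
  obtain ⟨hf, i, hi⟩ : s.Rm f ∧ ∃ i, f i = e i := by simpa using h0
  by_cases h1 : s.priv e f
  · have h2 : s.ch e f = base s.own s.ex f := by rw [Sys.ch, if_neg h0, if_pos h1]
    by_cases h3 : ∀ j ≠ i, ¬s.cov j (f j)
    · exact Or.inr (Or.inl ⟨i, ⟨hf, hi, h3⟩, h2⟩)
    push Not at h3
    obtain ⟨j, h3, h4⟩ := h3
    obtain ⟨l, h5, h6⟩ := third i j h3.symm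
    refine Or.inr (Or.inr (Or.inl ⟨hf, h1, h2, l, fun k hk => ?_⟩))
    rcases tri i j l h3.symm h5 h6 k with rfl | rfl | rfl
    exacts [hi, h1 _ h4, absurd rfl hk]
  by_cases h2 : ∀ i, s.cov i (f i)
  · exact Or.inr (Or.inr (Or.inr (Or.inl ⟨hf, h2, h1, by rw [Sys.ch, if_neg h0, if_neg h1, if_pos h2]⟩)))
  refine Or.inr (Or.inr (Or.inr (Or.inr fun he => ?_)))
  obtain ⟨l, hl⟩ := not_forall.1 h2
  obtain ⟨j, ⟨e', he', h3⟩, h4⟩ : ∃ j, s.cov j (f j) ∧ f j ≠ e j := by simpa [priv] using h1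
  refine ⟨i, e', j, l, hf, he, he', ?_, hi, h3.symm, ?_, ?_, ?_, hl⟩ <;> rintro rfl
  exacts [h4 h3.symm, h4 hi, hl (cov_of he hi), hl (cov_of he' h3.symm)]

lemma a3_bd (e : Ed V) (i : Fin 3) (f : Ed V) :
    1 / 4 - 1 / 3600 ≤ s.a3 e i f ∧ s.a3 e i f ≤ 1 / 4 + 1 / 3600 := by
  unfold a3; split_ifs <;> norm_num

lemma bb_bd (e : Ed V) (i : Fin 3) : 1 / 3 - 1 / 100 ≤ s.bb e i ∧ s.bb e i ≤ 1 / 3 + 1 / 100 := by
  unfold bb; split_ifs <;> norm_num

lemma Sp.share_add (h : s.Sp f e i e' j l) :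
    base s.own s.ex f ≤ s.share e i f + s.share e' j f := by
  have n1 : ∀ Q : Ed V → Prop, (∀ a ∈ s.M, ∀ k, f k = a k → Q a) ↔ Q e ∧ Q e' := fun Q =>
    ⟨fun a => ⟨a e h.he i h.hi, a e' h.he' j h.hj⟩, fun a b hb k hk =>
      (h.nbr hb hk).elim (fun c => c.1 ▸ a.1) fun c => c.1 ▸ a.2⟩
  unfold share
  simp only [n1 (T3 s.own), n1 fun a => ¬T3 s.own a]
  by_cases h3 : T3 s.own f
  · rw [if_pos h3, if_pos h3, h3.base]
    have t1 := tight_swap h h3
    have t2 := tight_swap h.symm h3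
    unfold a3
    split_ifs <;> first | (norm_num; done) | (exfalso; tauto)
  rw [if_neg h3, if_neg h3]
  by_cases hH : TH s.own s.ex f
  swap
  · rw [if_neg hH, if_neg hH, (h.rm.type.resolve_left h3).base hH]; norm_num
  rw [if_pos hH, if_pos hH, hH.base]
  by_cases a : T3 s.own e <;> by_cases b : T3 s.own e' <;> simp only [a, b, if_true, if_false,
    and_true, and_false, not_true, not_false_iff] <;> try norm_num
  have a' := (h.rm.2 e h.he i h.hi).resolve_left a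
  have b' := (h.rm.2 e' h.he' j h.hj).resolve_left b
  have t1 := h22 h hH a' b'
  have t2 := h22 h.symm hH b' a'
  unfold bb
  split_ifs with c1 c2 c3 c4 c5 c6 c7 c8 <;> first | (norm_num; done) | exfalso
  exacts [t1 (not_le.1 c1) c4 (not_le.1 c5), t1 (not_le.1 c1) c4 (not_le.1 c5),
    t2 (not_le.1 c7) c8 (not_le.1 c1)]

lemma base_le_sum (hf : s.Rm f) : base s.own s.ex f ≤ ∑ e ∈ s.M, s.ch e f := by
  obtain ⟨e, he, i, hi⟩ := hf.1.meets
  have h1 : s.priv e f → s.ch e f = base s.own s.ex f → base s.own s.ex f ≤ ∑ e ∈ s.M, s.ch e f := by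
    intro a b
    rw [sum_eq_single_of_mem e he fun e' he' hne => ch_zero (Or.inr fun k hk =>
      hne (List.mem_singleton.1 (a.nb he (List.mem_singleton_self e) e' he' k hk))), b]
  rcases s.cls e f with a | ⟨k, a, b⟩ | ⟨-, a, b, -⟩ | ⟨-, a, b, -⟩ | a
  · exact absurd hi (a.1.resolve_left (not_not.2 hf) i)
  · exact h1 a.priv b
  · exact h1 a b
  · have h2 : ∀ e' ∈ s.M, s.ch e' f = kk e' f / 6 := by
      intro e' he'
      by_cases c : ∀ k, f k ≠ e' k
      · rw [ch_zero (Or.inr c)]; simp [kk, ind_neg (c _)]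
      rw [Sys.ch, if_neg (by simpa [hf] using c), if_neg fun d => ?_, if_pos a]
      exact b (s.uniq he' he ((d i (a i)).symm.trans hi) ▸ d)
    have h3 : T3 s.own f := fun k => hf.1.cov_R (a k)
    rw [sum_congr rfl h2, ← sum_div, h3.base]
    unfold kk
    rw [sum_comm]
    have h4 : ∀ k, 1 ≤ ∑ e ∈ s.M, ind (f k = e k) := by
      intro k
      obtain ⟨e', he', c⟩ := a k
      rw [← ind_pos c.symm]
      exact single_le_sum (f := fun e => ind (f k = e k)) (fun _ _ => ind_nonneg _) he'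
    rw [Fin.sum_univ_three]
    linarith [h4 0, h4 1, h4 2]
  · obtain ⟨i, e', j, l, h⟩ := a he
    rw [sum_eq_add_of_mem e e' he h.he' h.ne fun a ha hne => ch_zero (Or.inr fun k hk =>
      (h.nbr ha hk).elim (fun b => hne.1 b.1) fun b => hne.2 b.1), h.ch, h.symm.ch]
    exact h.share_add

lemma kk_one (hi : f i = e i) (h : ∀ k ≠ i, f k ≠ e k) : kk e f = 1 := by
  obtain ⟨p, q, h1, h2, h3⟩ := others i
  rw [kk, sum3 h1 h2 h3, ind_pos hi, ind_neg (h p h2.symm), ind_neg (h q h3.symm)]; norm_num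

lemma kk_two (h : ∀ j ≠ l, f j = e j) : 2 ≤ kk e f := by
  obtain ⟨p, q, h1, h2, h3⟩ := others l
  rw [kk, sum3 h1 h2 h3, ind_pos (h p h2.symm), ind_pos (h q h3.symm)]
  linarith [ind_nonneg (f l = e l)]

lemma kk_nonneg (e f : Ed V) : 0 ≤ kk e f := sum_nonneg fun _ _ => ind_nonneg _

lemma kk_self (e : Ed V) : kk e e = 3 := by simp [kk, ind]

lemma S_kk (e : Ed V) : S s.x (kk e) ≤ 3 := by
  have : S s.x (kk e) = ∑ i, wt s.x fun f => f i = e i := S_sum s.x univ fun i f => ind (f i = e i)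
  rw [this, Fin.sum_univ_three]
  linarith [s.load 0 (e 0), s.load 1 (e 1), s.load 2 (e 2)]

lemma ch_self (h3 : T3 s.own e) (he : e ∈ s.M) : s.ch e e ≤ 1 / 2 := by
  unfold ch
  split_ifs with a b
  exacts [by norm_num, h3.base.le, absurd (fun _ _ => rfl) b, absurd (fun _ _ => rfl) b]

lemma Sp.share3 (h : s.Sp f e i e' j l) (h3 : T3 s.own e) : s.ch e f = s.a3 e i f ∨
    (s.HX e i f ∧ s.ch e f = 1 / 3) ∨ s.ch e f ≤ 1 / 6 + 1 / 20 := by
  rw [h.ch, share]
  split_ifs with a b c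
  exacts [Or.inl rfl, Or.inr (Or.inl ⟨⟨e', j, l, h, b, c e' h.he' j h.hj⟩, rfl⟩),
    Or.inr (Or.inr le_rfl), Or.inr (Or.inr (by norm_num))]

lemma bound_slack (he : e ∈ s.M) (h3 : T3 s.own e) (ht : ¬s.tight e) :
    S s.x (s.ch e) ≤ 1 - 1 / (27 * 10 ^ 6) := by
  have h1 := S_le s.hx (a := s.ch e) (b := fun f => (1 / 4 + 1 / 3600) * kk e f +
      1 / 12 * ind (∃ i, s.HX e i f) + (1 / 4 - 1 / 3600) * ind (s.P e f) -
      (1 / 4 + 3 / 3600) * ind (f = e)) (by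
    intro f _
    have n1 := kk_nonneg e f
    have n2 := ind_nonneg (∃ i, s.HX e i f)
    have n3 := ind_nonneg (s.P e f)
    by_cases hfe : f = e
    · subst hfe
      rw [kk_self, ind_pos rfl]
      linarith [ch_self h3 he]
    rw [ind_neg hfe]
    rcases s.cls e f with a | ⟨k, a, b⟩ | ⟨a, b, c, l, d⟩ | ⟨-, -, -, a⟩ | a
    · linarith [a.2]
    · rw [b, (priv3 he h3 a.1.1 a.priv).1.base, kk_one a.2.1 fun k hk => a.ne he hk,
        ind_pos (p := s.P e f) ⟨k, a⟩]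
      linarith
    · rw [c, (priv3 he h3 a.1 b).1.base]
      linarith [kk_two d]
    · linarith
    · obtain ⟨i, e', j, l, h⟩ := a he
      rw [kk_one h.hi fun k hk => h.one hk]
      rcases h.share3 h3 with a | ⟨a, b⟩ | a
      · linarith [(a3_bd (s := s) e i f).2]
      · rw [ind_pos (p := ∃ i, s.HX e i f) ⟨i, a⟩]; linarith
      · linarith)
  simp only [S_add, S_sub, S_mul, S_ind] at h1
  have h2 : s.x e ≤ wt s.x fun f => f = e := le_wt s.hx rfl
  have h4 := S_kk (s := s) e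
  have h5 := s.hx e
  have h6 := wt_nonneg s.hx fun f => ∃ i, s.HX e i f
  change S s.x (s.ch e) ≤ _ * S s.x (kk e) + _ + _ * wt s.x (s.P e) - _ at h1
  by_cases h0 : ∃ q, s.use e q
  swap
  · rw [wt_zero s.hx (A := s.P e) fun f _ ⟨i, h⟩ => h0 ⟨i, f, h⟩] at h1
    linarith [HX_wt h3]
  obtain ⟨q, hq⟩ := h0
  rcases centre he h3 with ⟨c, z, hc⟩ | hu
  · have h7 := (wt_disj s.hx (A := fun f => ∃ i, s.HX e i f) (B := s.P e) (C := fun f => f c = z)
      ?_ (fun f _ => hc.1 f) fun f _ ⟨_, _, _, _, h, _⟩ ⟨_, h'⟩ => h.notP h').trans (s.load c z)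
    · simp only [tight, h3, true_and, not_and_or, not_lt] at ht
      rcases ht with ht | ht <;> linarith
    rintro f - ⟨i, hf⟩
    rcases hc.2 with ⟨a, b⟩ | ⟨-, -, b⟩
    · obtain rfl : q = c := by by_contra d; exact b q d hq
      obtain rfl := hf.use h3 hq
      obtain ⟨_, _, _, h, -⟩ := hf
      rw [a, h.hi]
    · obtain ⟨p, q, d1, d2, d3⟩ := others c
      exact absurd ((hf.use h3 (b p d2.symm)).trans (hf.use h3 (b q d3.symm)).symm) d1
  · rw [wt_zero s.hx (A := fun f => ∃ i, s.HX e i f) fun f _ ⟨i, h⟩ =>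
      absurd ((h.use h3 (hu 0)).trans (h.use h3 (hu 1)).symm) (by decide)] at h1
    linarith [(ftype he h3 hu).1, (ftype he h3 hu).2]

lemma bound_tight (he : e ∈ s.M) (ht : s.tight e) : S s.x (s.ch e) ≤ 1 - 1 / (27 * 10 ^ 6) := by
  have h3 := ht.1
  obtain ⟨c, z, hc⟩ := ht.cen he
  obtain ⟨g, q, hg⟩ := ex_of_pos s.hx (lt_trans (by norm_num) ht.2.1)
  obtain ⟨d, d1, d2, d3⟩ : ∃ d, ¬s.use e d ∧ (∀ l, ¬s.use e l → (l ≠ c ∧ z = e c) ∨ l = d) ∧
      ∀ i f, s.HX e i f → f c = z := by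
    rcases hc.2 with ⟨a, b⟩ | ⟨a, b, b'⟩
    · obtain rfl : q = c := by by_contra d; exact b q d ⟨g, hg⟩
      obtain ⟨d, -, -, h, -⟩ := others q
      refine ⟨d, b d h.symm, fun l hl => Or.inl ⟨fun e => hl ⟨g, e ▸ hg⟩, a⟩, fun i f hf => ?_⟩
      obtain rfl := hf.use h3 ⟨g, hg⟩
      obtain ⟨_, _, _, h, -⟩ := hf
      rw [a, h.hi]
    · refine ⟨c, b, fun l hl => Or.inr (by by_contra d; exact hl (b' l d)), fun i f hf => ?_⟩
      obtain ⟨p, q, d1, d2, d3⟩ := others c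
      exact absurd ((hf.use h3 (b' p d2.symm)).trans (hf.use h3 (b' q d3.symm)).symm) d1
  obtain ⟨p, q, e1, e2, e3⟩ := others d
  have h1 := S_le s.hx (a := s.ch e) (b := fun f => 1 / 4 * ind (f p = e p) + 1 / 4 * ind (f q = e q) +
      (1 / 4 - 1 / 3600) * ind (f d = e d) + 1 / 4 * ind (f c = z) + 2 / 3600 * ind (s.Exc e f)) (by
    intro f _
    have n0 : kk e f = ind (f p = e p) + ind (f q = e q) + ind (f d = e d) := sum3 e1 e2 e3 _
    have n1 := ind_nonneg (f p = e p)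
    have n2 := ind_nonneg (f q = e q)
    have n3 := ind_nonneg (f d = e d)
    have n4 := ind_nonneg (f c = z)
    have n5 := ind_nonneg (s.Exc e f)
    have n6 := ind_le_one (f d = e d)
    by_cases hfe : f = e
    · subst hfe
      rw [ind_pos rfl, ind_pos rfl, ind_pos rfl]
      linarith [ch_self h3 he]
    rcases s.cls e f with a | ⟨k, a, b⟩ | ⟨a, b, c', l, d'⟩ | ⟨-, -, -, a⟩ | a
    · linarith [a.2]
    · rw [kk_one a.2.1 fun k hk => a.ne he hk] at n0
      rw [b, (priv3 he h3 a.1.1 a.priv).1.base, ind_pos (hc.1 f ⟨k, a⟩)]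
      rw [ind_neg (a.ne he (j := d) fun h => d1 ⟨f, h ▸ a⟩)] at n0 ⊢
      linarith
    · have f3 := (priv3 he h3 a.1 b).1
      have hl : f l ≠ e l := fun h => hfe (funext fun k => if hk : k = l then hk ▸ h else d' k hk)
      have hu : ¬s.use e l := by
        rintro ⟨g, hg⟩
        obtain ⟨m, hm⟩ := (privCf he (Or.inl h3) a.1 b hg.1.1 hg.priv).resolve_right f3.noSS
        rcases eq_or_ne m l with rfl | h
        exacts [hl (hm.trans hg.2.1), hg.ne he h (hm.symm.trans (d' m h))]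
      have := kk_two d'
      rw [c', f3.base]
      rcases d2 l hu with ⟨h, h'⟩ | rfl
      · rw [ind_pos (p := f c = z) (h' ▸ d' c h.symm)]; linarith
      · rw [ind_neg hl] at n0 ⊢; linarith
    · linarith
    · obtain ⟨i, e', j, l, h⟩ := a he
      rw [kk_one h.hi fun k hk => h.one hk] at n0
      rcases h.share3 h3 with a | ⟨a, b⟩ | a
      · rw [a, a3]
        split_ifs with b b'
        · rw [ind_neg (h.one (k := d) fun h => d1 (h ▸ b'))] at n0 ⊢; linarith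
        · linarith
        · rw [ind_pos (p := s.Exc e f) (by tauto)]; linarith
      · rw [ind_pos (d3 i f a)]; linarith
      · linarith)
  simp only [S_add, S_mul, S_ind] at h1
  have h2 : wt s.x (fun f => s.Exc e f) ≤ 3 / 10 := exc_wt hc.wt_le
  change S s.x (s.ch e) ≤ _ at h1
  linarith [s.load p (e p), s.load q (e q), s.load d (e d), s.load c z]

variable (s) in
def phi (e : Ed V) (i : Fin 3) (f : Ed V) : ℝ :=
  s.bb e i * ind (f i = e i) + (2 / 3 - s.bb e i) * ind (TH s.own s.ex f ∧ s.P1 e i f) +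
    (1 / 2 - s.bb e i) * ind (¬TH s.own s.ex f ∧ s.P1 e i f) +
    (1 / 2 - 1 / 20 - s.bb e i) * ind (s.HX e i f)

lemma phi_ge (e : Ed V) (i : Fin 3) (f : Ed V) : s.bb e i * ind (f i = e i) ≤ s.phi e i f := by
  have := bb_bd (s := s) e i
  have a1 := mul_nonneg (show 0 ≤ 2 / 3 - s.bb e i by linarith [this.2])
    (ind_nonneg (TH s.own s.ex f ∧ s.P1 e i f))
  have a2 := mul_nonneg (show 0 ≤ 1 / 2 - s.bb e i by linarith [this.2])
    (ind_nonneg (¬TH s.own s.ex f ∧ s.P1 e i f))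
  have a3 := mul_nonneg (show 0 ≤ 1 / 2 - 1 / 20 - s.bb e i by linarith [this.2])
    (ind_nonneg (s.HX e i f))
  unfold phi; linarith

lemma phi_nonneg (e : Ed V) (i : Fin 3) (f : Ed V) : 0 ≤ s.phi e i f :=
  le_trans (mul_nonneg (by linarith [(bb_bd (s := s) e i).1]) (ind_nonneg _)) (phi_ge e i f)

lemma Rm.base_le (h : s.Rm f) (hH : ¬TH s.own s.ex f) : base s.own s.ex f ≤ 1 / 2 :=
  h.type.elim (fun a => a.base.le) fun a => by rw [a.base hH]; norm_num

lemma P1.phi (h : s.P1 e i f) : base s.own s.ex f ≤ s.phi e i f := by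
  have hx : ¬s.HX e i f := fun ⟨_, _, _, a, _⟩ => a.notP h
  rw [Sys.phi, ind_pos h.2.1, ind_neg hx]
  by_cases hH : TH s.own s.ex f
  · rw [ind_pos ⟨hH, h⟩, ind_neg fun a => a.1 hH, hH.base]; linarith
  · rw [ind_pos (p := ¬_ ∧ _) ⟨hH, h⟩, ind_neg fun a => hH a.1]; linarith [h.1.base_le hH]

lemma Sp.phi (h : s.Sp f e i e' j l) (h2 : T2 s.own e) : s.ch e f ≤ s.phi e i f := by
  have a1 := phi_ge (s := s) e i f
  have a2 := bb_bd (s := s) e i
  rw [ind_pos h.hi] at a1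
  rw [h.ch, share, if_neg h2.not3]
  split_ifs with a b c
  · linarith [(a3_bd (s := s) e i f).2]
  · linarith
  · have : T3 s.own e' := by
      by_contra d
      exact c fun a ha k hk => (h.nbr ha hk).elim (fun b => b.1 ▸ h2.not3) fun b => b.1 ▸ d
    rw [Sys.phi, ind_pos h.hi, ind_neg fun a => h.notP a.2, ind_neg fun a => h.notP a.2,
      ind_pos (p := s.HX e i f) ⟨e', j, l, h, b, this⟩]
    linarith
  · linarith

lemma S_phi (e : Ed V) (i : Fin 3) : ∃ z, 0 ≤ z ∧ s.hh e i + z ≤ wt s.x (s.P1 e i) ∧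
    S s.x (s.phi e i) ≤ s.bb e i + (2 / 3 - s.bb e i) * s.hh e i + (1 / 2 - s.bb e i) * z +
      (1 / 2 - 1 / 20 - s.bb e i) * wt s.x (s.HX e i) := by
  refine ⟨wt s.x fun f => ¬TH s.own s.ex f ∧ s.P1 e i f, wt_nonneg s.hx _,
    wt_disj s.hx (fun _ _ h => h.2) (fun _ _ h => h.2) fun _ _ a b => b.1 a.1, ?_⟩
  unfold phi
  simp only [S_add, S_mul, S_ind]
  have := mul_le_of_le_one_right (show 0 ≤ s.bb e i by linarith [(bb_bd (s := s) e i).1])
    (s.load i (e i))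
  unfold hh
  linarith

lemma bound_two (he : e ∈ s.M) (h2 : T2 s.own e) :
    S s.x (s.ch e) + wt s.x (fun f => SS s.own f e) ≤ 1 - 1 / (27 * 10 ^ 6) - 7 / 10 ^ 6 := by
  obtain ⟨c, c1, c2, c3⟩ := ports he h2
  obtain ⟨p, q, e1, e2, e3⟩ := others c
  have h1 := S_le s.hx (a := s.ch e) (b := fun f => s.phi e p f + s.phi e q f +
      (2 / 3 - s.bb e p - s.bb e q) * ind (s.par e p q f)) (by
    intro f _
    have n1 := phi_ge (s := s) e p f
    have n2 := phi_ge (s := s) e q f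
    have n3 := phi_nonneg (s := s) e p f
    have n4 := phi_nonneg (s := s) e q f
    have n5 := bb_bd (s := s) e p
    have n6 := bb_bd (s := s) e q
    by_cases hp : s.par e p q f
    · obtain ⟨a1, a2, a3, a4⟩ := id hp
      rw [ind_pos a3] at n1
      rw [ind_pos a4] at n2
      rw [ind_pos hp, ch, if_neg (by simpa [a1] using ⟨p, a3⟩), if_pos, a2.base]
      · linarith
      intro k hk
      rcases tri p q c e1 e2 e3 k with rfl | rfl | rfl
      exacts [a3, a4, absurd (fun r => (tri p q k e1 e2 e3 r).elim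
        (fun h => h ▸ a1.1.cov_R (cov_of he a3)) fun h => h.elim
        (fun h => h ▸ a1.1.cov_R (cov_of he a4)) fun h => h ▸ a1.1.cov_R hk) a2.t2.not3]
    rw [ind_neg hp, mul_zero, add_zero]
    rcases s.cls e f with a | ⟨k, a, b⟩ | ⟨a, b, c', l, d'⟩ | ⟨a, -, -, b⟩ | a
    · linarith [a.2]
    · have := a.phi
      rcases tri p q c e1 e2 e3 k with rfl | rfl | rfl
      exacts [by linarith, by linarith, absurd a.2.1 (c1 f a.1.1)]
    · obtain rfl : c = l := by by_contra h; exact c1 f a.1 (d' c h)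
      rw [ind_pos (d' p e2.symm)] at n1
      rw [ind_pos (d' q e3.symm)] at n2
      linarith [a.base_le fun h => hp ⟨a, h, d' p e2.symm, d' q e3.symm⟩]
    · rw [b, kk, sum3 e1 e2 e3, ind_neg (c1 f a.1)]
      nlinarith [ind_nonneg (f p = e p), ind_nonneg (f q = e q)]
    · obtain ⟨i, e', j, l, h⟩ := a he
      have := h.phi h2
      rcases tri p q c e1 e2 e3 i with rfl | rfl | rfl
      exacts [by linarith, by linarith, absurd h.hi (c1 f h.rm.1)])
  simp only [S_add, S_mul, S_ind] at h1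
  obtain ⟨zp, p1, p2, p3⟩ := S_phi (s := s) e p
  obtain ⟨zq, q1, q2, q3⟩ := S_phi (s := s) e q
  have l1 := port_load he e1
  have l2 := port_load he e1.symm
  have l3 : wt s.x (s.par e p q) ≤ wt s.x (s.par e q p) :=
    wt_mono s.hx fun f _ h => ⟨h.1, h.2.1, h.2.2.2, h.2.2.1⟩
  have f1 := noHX h2 e1
  have f1' := noHX h2 e1.symm
  have f2 := F2 he e1 e2 e3
  have f3 := F3 he e1 e2 e3 c2
  have n1 := wt_nonneg s.hx (s.HX e p)
  have n2 := wt_nonneg s.hx (s.HX e q)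
  have n3 := wt_nonneg s.hx (s.par e p q)
  have n4 : 0 ≤ s.hh e p := wt_nonneg s.hx _
  have n5 : 0 ≤ s.hh e q := wt_nonneg s.hx _
  have hs : wt s.x (fun f => SS s.own f e) ≤ 1 / 10 ^ 6 ∨
      (wt s.x (fun f => SS s.own f e) ≤ 1 / 250 ∧ s.hh e p = 0 ∧ s.hh e q = 0) := by
    by_cases hH : TH s.own s.ex e
    · exact Or.inl ((s.wt_SS e).2.2.2 hH)
    have : ∀ i, s.hh e i = 0 := fun i => wt_zero s.hx fun f _ a =>
      hH (privH he h2 a.2.1.1 a.2.priv a.1)
    exact Or.inr ⟨(s.wt_SS e).2.2.1 h2, this p, this q⟩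
  have bp : s.bb e p = if s.hh e q ≤ 1 / 4 then 1 / 3 + 1 / 100
      else if 4 / 5 ≤ s.hh e p + s.hh e q then 1 / 3 - 1 / 100 else 1 / 3 := by
    simp only [bb, sum3 e1 e2 e3, c3, add_zero, add_sub_cancel_left]
  have bq : s.bb e q = if s.hh e p ≤ 1 / 4 then 1 / 3 + 1 / 100
      else if 4 / 5 ≤ s.hh e p + s.hh e q then 1 / 3 - 1 / 100 else 1 / 3 := by
    simp only [bb, sum3 e1 e2 e3, c3, add_zero, add_sub_cancel_right]
  change S s.x (s.ch e) ≤ S s.x (s.phi e p) + S s.x (s.phi e q) + _ * wt s.x (s.par e p q) at h1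
  generalize s.bb e p = b1 at *
  generalize s.bb e q = b2 at *
  generalize s.hh e p = u1 at *
  generalize s.hh e q = u2 at *
  rcases hs with hs | ⟨hs, rfl, rfl⟩
  swap
  · rw [if_pos (by norm_num)] at bp bq
    subst bp bq
    linarith
  by_cases a1 : 1 / 10 ^ 6 < u1 <;> by_cases a2 : 1 / 10 ^ 6 < u2
  · obtain ⟨f4, f5⟩ := f3 a1 a2
    have := f1 a1
    have := f1' a2
    split_ifs at bp bq <;> subst bp bq <;> linarith
  · have := f1 a1
    split_ifs at bp bq <;> subst bp bq <;> linarith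
  · have := f1' a2
    split_ifs at bp bq <;> subst bp bq <;> linarith
  · split_ifs at bp bq <;> subst bp bq <;> linarith

theorem main (s : Sys V G) : S s.x (base s.own s.ex) ≤
    ∑ e ∈ s.M, (1 - 1 / (27 * 10 ^ 6) - 7 / 10 ^ 6 * ind (¬T3 s.own e)) := by
  have h1 := S_le s.hx (a := base s.own s.ex) (b := fun f => ∑ e ∈ s.M, (s.ch e f + ind (SS s.own f e) +
      5 / 6 * ind (s.Rem f ∧ ¬(T3 s.own e ∨ T2 s.own e) ∧ ∃ i, f i = e i))) (by
    intro f hf
    have nn : ∀ e ∈ s.M, 0 ≤ ind (SS s.own f e) +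
        5 / 6 * ind (s.Rem f ∧ ¬(T3 s.own e ∨ T2 s.own e) ∧ ∃ i, f i = e i) := fun e _ => by
      linarith [ind_nonneg (SS s.own f e),
        ind_nonneg (s.Rem f ∧ ¬(T3 s.own e ∨ T2 s.own e) ∧ ∃ i, f i = e i)]
    simp only [add_assoc]
    rw [sum_add_distrib]
    by_cases h : s.Rm f
    · linarith [base_le_sum h, sum_nonneg nn]
    rw [sum_eq_zero fun e _ => ch_zero (Or.inl h), zero_add]
    by_cases h' : s.Rem f
    · obtain ⟨e, he, i, hi, h2⟩ : ∃ e ∈ s.M, ∃ i, f i = e i ∧ ¬(T3 s.own e ∨ T2 s.own e) := by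
        simpa [Rm, h'] using h
      refine le_trans ?_ (single_le_sum nn he)
      rw [ind_pos (p := _ ∧ _) ⟨h', h2, i, hi⟩]
      linarith [ind_nonneg (SS s.own f e), base_le' (ex := s.ex) (h'.cov_R (cov_of he hi))]
    · obtain ⟨e, he, h2⟩ : ∃ e ∈ s.M, SS s.own f e := by simpa [Rem, hf] using h'
      refine le_trans ?_ (single_le_sum nn he)
      rw [ind_pos h2]
      linarith [ind_nonneg (s.Rem f ∧ ¬(T3 s.own e ∨ T2 s.own e) ∧ ∃ i, f i = e i),
        base_le (own := s.own) (ex := s.ex) (f := f)])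
  rw [S_sum] at h1
  refine h1.trans (sum_le_sum fun e he => ?_)
  simp only [S_add, S_mul, S_ind]
  change S s.x (s.ch e) + _ + _ ≤ _
  by_cases h : T3 s.own e ∨ T2 s.own e
  · rw [wt_zero s.hx (A := fun f => s.Rem f ∧ ¬(T3 s.own e ∨ T2 s.own e) ∧ ∃ i, f i = e i)
      fun f _ a => a.2.1 h]
    rcases h with h | h
    · rw [ind_neg (not_not.2 h)]
      have := (s.wt_SS e).2.1 h
      by_cases ht : s.tight e
      exacts [by linarith [bound_tight he ht], by linarith [bound_slack he h ht]]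
    · rw [ind_pos h.not3]
      linarith [bound_two he h]
  · have a1 : S s.x (s.ch e) ≤ S s.x fun _ => 0 := S_le s.hx fun f _ =>
      (ch_zero (or_iff_not_imp_left.2 fun a i hi => h ((not_not.1 a).2 e he i hi))).le
    have a2 : S s.x (fun _ => 0) = 0 := by simp [S]
    have a3 : wt s.x (fun f => s.Rem f ∧ ¬(T3 s.own e ∨ T2 s.own e) ∧ ∃ i, f i = e i) ≤ 1 := by
      by_cases h0 : ∃ i, s.own i (e i) = none
      · obtain ⟨i, hi⟩ := h0
        refine le_trans (wt_mono s.hx ?_) (s.load i (e i))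
        rintro f - ⟨a, -, j, hj⟩
        obtain rfl : i = j := by by_contra b; exact h (two_R b hi (hj ▸ a.cov_R (cov_of he hj)))
        exact hj
      · rw [wt_zero s.hx fun f _ ⟨a, _, j, hj⟩ => h0 ⟨j, hj ▸ a.cov_R (cov_of he hj)⟩]; norm_num
    linarith [(s.wt_SS e).1, ind_le_one (¬T3 s.own e)]

end Sys

end

end Pool.Agent.MP_4b8552_co.H92
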