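import Pool.Agent.MP_4b8552_co.H92.Account

/-! Hall's theorem with deficiency and the final matching. -/

namespace Pool.Agent.MP_4b8552_co.H92

open Finset H88
open scoped Classical

noncomputable section

lemma hall_def {ι α : Type} [Fintype ι] [DecidableEq α] (N : ι → Finset α) (K : ℕ)
    (h : ∀ s : Finset ι, s.card ≤ (s.biUnion N).card + K) :
    ∃ φ : ι → Option α, (∀ r a, φ r = some a → a ∈ N r) ∧
      (∀ r r' a, φ r = some a → φ r' = some a → r = r') ∧ (univ.filter (φ · = none)).card ≤ K := by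
  obtain ⟨ψ, h1, h2⟩ := (all_card_le_biUnion_card_iff_exists_injective
    fun r => (N r).disjSum (univ : Finset (Fin K))).1 fun s => by
      rcases s.eq_empty_or_nonempty with rfl | ⟨r, hr⟩
      · simp
      refine (h s).trans (le_of_eq_of_le ?_ (card_le_card
        (s := (s.biUnion N).disjSum (univ : Finset (Fin K))) ?_))
      · simp
      · rintro (a | a) ha
        · simpa using ha
        · simpa using ⟨r, hr⟩
  refine ⟨fun r => (ψ r).getLeft?, fun r a e => ?_, fun r r' a e e' => h1 ?_, ?_⟩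
  · have := h2 r
    rw [Sum.getLeft?_eq_some_iff.1 e] at this
    simpa using this
  · rw [Sum.getLeft?_eq_some_iff.1 e, Sum.getLeft?_eq_some_iff.1 e']
  · refine le_of_le_of_eq (card_le_card_of_injOn (t := (univ : Finset (Fin K)).map ⟨Sum.inr, Sum.inr_injective⟩)
      ψ (fun r hr => ?_) h1.injOn) (by simp)
    rcases e : ψ r with a | a
    · simp [e] at hr
    · simp

variable {n t : ℕ} {μ : Ed (Fin n) → ℕ} {F : Finset (Gd n)}

lemma Row.ext (hD : Dis F) {T g : Gd n} {c : Fin 3} {f : Ed (Fin n)} (hT : T ∈ F) (hT' : T.1 = T.2)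
    (h : Row t μ F T.1 c f) (hg : g ∈ F) (hm : mem g c (f c)) : ext g f := by
  have hne : g ≠ T := by
    rintro rfl
    exact h.1 (hm.elim id fun a => hT' ▸ a)
  have key : ∀ j ≠ c, ¬mem g j (f j) := fun j hj a => hne (hD g hg T hT j _ a (Or.inl (h.2.1 j hj)))
  refine ⟨⟨c, hm⟩, ?_⟩
  rintro (⟨-, a⟩ | ⟨-, k, a⟩)
  · obtain ⟨p, -, -, b, -⟩ := others c
    exact key p b.symm (a.mem p)
  · obtain ⟨p, q, b1, b2, b3⟩ := others c
    rcases eq_or_ne p k with rfl | b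
    exacts [key q b3.symm (Or.inl (a q b1.symm)), key p b2.symm (Or.inl (a p b))]

lemma row_wt (hr : Regular t μ) (ht : 0 < t) {T : Gd n} (hG : Good t μ F T) (h : T.1 = T.2)
    (c : Fin 3) : 1 / 2 - 1 / 500 ≤ wt (xx t μ) (Row t μ F T.1 c) := by
  have a := (hG.resolve_left fun a => a.1 0 (by rw [h])).2
  have b := wt_or (xx_nonneg t μ) (A := fun f => ∃ c, Row t μ F T.1 c f) (B := Row t μ F T.1 c)
    (C := fun f => f c = T.1 c) fun f _ ⟨k, hk⟩ =>
      if e : k = c then Or.inl (e ▸ hk) else Or.inr (hk.2.1 c (Ne.symm e))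
  rw [load_eq hr ht] at b
  linarith

abbrev Rw (F : Finset (Gd n)) := {r : Gd n × Fin 3 // r.1 ∈ F ∧ r.1.1 = r.1.2}

lemma rows (hr : Regular t μ) (ht : 10 ^ 6 ≤ t) (hD : Dis F) (hG : ∀ g ∈ F, Good t μ F g)
    (B : Finset (Gd n)) : ∃ φ : Rw F → Option (Gd n),
      (∀ r g, φ r = some g → g ∈ F ∧ g ∉ B ∧
        ∃ f, 0 < μ f ∧ Row t μ F r.1.1.1 r.1.2 f ∧ mem g r.1.2 (f r.1.2)) ∧
      (∀ r r' g, φ r = some g → φ r' = some g → r = r') ∧
      ((univ.filter (φ · = none)).card : ℝ) ≤ 7 / 3 / 10 ^ 6 * B.card := by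
  have hx := xx_nonneg t μ
  let N : Rw F → Finset (Gd n) := fun r => F.filter fun g => exp t μ g ∧ g ∉ B ∧
    ∃ f, 0 < μ f ∧ Row t μ F r.1.1.1 r.1.2 f ∧ mem g r.1.2 (f r.1.2)
  obtain ⟨φ, h1, h2, h3⟩ := hall_def N ⌊(7 / 3 / 10 ^ 6 : ℝ) * B.card⌋₊ fun s => by
    let N0 := (s.biUnion N ∪ B).filter fun g => g ∈ F ∧ exp t μ g
    have a1 := S_le hx (a := fun f => ∑ r ∈ s, ind (Row t μ F r.1.1.1 r.1.2 f))
        (b := fun f => ∑ g ∈ N0, ind (ext g f)) (by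
      intro f hf
      by_cases h : ∃ r ∈ s, Row t μ F r.1.1.1 r.1.2 f
      swap
      · rw [sum_eq_zero fun r hr => ind_neg fun a => h ⟨r, hr, a⟩]
        exact sum_nonneg fun _ _ => ind_nonneg _
      obtain ⟨r, hr, h⟩ := h
      obtain ⟨g, g1, g2, g3⟩ := h.2.2
      have hf' : 0 < μ f := Nat.pos_of_ne_zero fun a => by simp [xx, a] at hf
      rw [sum_eq_single_of_mem r hr fun r' _ e => ind_neg fun h' => e ?_, ind_pos h,
        ← ind_pos (h.ext hD r.2.1 r.2.2 g1 g3)]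
      · refine single_le_sum (f := fun g => ind (ext g f)) (fun _ _ => ind_nonneg _)
          (mem_filter.2 ⟨?_, g1, g2⟩)
        by_cases hB : g ∈ B
        exacts [mem_union_right _ hB, mem_union_left _ (mem_biUnion.2
          ⟨r, hr, mem_filter.2 ⟨g1, g2, hB, f, hf', h, g3⟩⟩)]
      · obtain ⟨j, j1, j2⟩ : ∃ j, j ≠ r.1.2 ∧ j ≠ r'.1.2 := by
          rcases eq_or_ne r.1.2 r'.1.2 with e | e
          exacts [(others r.1.2).elim fun p ⟨_, _, a, _⟩ => ⟨p, a.symm, e ▸ a.symm⟩, third _ _ e]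
        have e1 := hD _ r'.2.1 _ r.2.1 j _ (Or.inl (h'.2.1 j j2)) (Or.inl (h.2.1 j j1))
        refine Subtype.ext (Prod.ext e1 (by_contra fun e2 => ?_))
        exact h'.1 (e1 ▸ h.2.1 _ e2))
    rw [S_sum, S_sum] at a1
    have a2 := card_nsmul_le_sum s (fun r => wt (xx t μ) (Row t μ F r.1.1.1 r.1.2)) _
      fun r _ => row_wt hr (by omega) (hG _ r.2.1) r.2.2 r.1.2
    have a3 := sum_le_card_nsmul N0 (fun g => wt (xx t μ) (ext g)) _ fun g hg =>
      (ext_load hr ht (hG g (mem_filter.1 hg).2.1)).2 (mem_filter.1 hg).2.2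
    have a4 : (N0.card : ℝ) ≤ (s.biUnion N).card + B.card := by
      exact_mod_cast (card_filter_le _ _).trans (card_union_le _ _)
    have a5 := Nat.lt_floor_add_one ((7 / 3 / 10 ^ 6 : ℝ) * B.card)
    generalize ⌊(7 / 3 / 10 ^ 6 : ℝ) * B.card⌋₊ = K at a5 ⊢
    rw [nsmul_eq_mul] at a2 a3
    have a6 := a2.trans (a1.trans a3)
    by_contra a7
    have a8 : ((s.biUnion N).card : ℝ) + K + 1 ≤ s.card := by
      exact_mod_cast (show (s.biUnion N).card + K + 1 ≤ s.card by omega)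
    have a9 : (0 : ℝ) ≤ (s.biUnion N).card := Nat.cast_nonneg _
    have a10 : (0 : ℝ) ≤ B.card := Nat.cast_nonneg _
    linarith
  refine ⟨φ, fun r g e => ?_, h2, (Nat.cast_le.2 h3).trans (Nat.floor_le (by positivity))⟩
  obtain ⟨a, -, b⟩ := mem_filter.1 (h1 r g e)
  exact ⟨a, b⟩

lemma matching (hr : Regular t μ) (ht : 10 ^ 6 ≤ t) (hc : copies t μ = ∅) (hD : Dis F)
    (hG : ∀ g ∈ F, Good t μ F g) {M : Finset (Ed (Fin n))} (hM : ∀ e ∈ M, 0 < μ e ∧ ok F e)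
    (hM' : ∀ e ∈ M, ∀ f ∈ M, e ≠ f → ¬Cf (own F) e f) :
    (F.card : ℝ) + ∑ e ∈ M, (1 - 7 / 10 ^ 6 * ind (¬T3 (own F) e)) ≤ nu μ := by
  let B := F.filter fun g => ∃ e ∈ M, ∃ i, mem g i (e i)
  have hB : B.card ≤ (M.filter fun e => ¬T3 (own F) e).card * 3 := by
    refine le_of_le_of_eq (le_trans (card_le_card_of_injOn some ?_ (Option.some_injective _).injOn)
      (card_image_le (s := (M.filter fun e => ¬T3 (own F) e) ×ˢ (univ : Finset (Fin 3)))
        (f := fun p => own F p.2 (p.1 p.2)))) (by simp)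
    intro g hg
    obtain ⟨h1, e, he, i, h2⟩ := mem_filter.1 hg
    have := own_eq hD h1 h2
    exact mem_image.2 ⟨(e, i), by simpa [he] using fun a : T3 (own F) e => by simp [a i] at this, this⟩
  obtain ⟨φ, h1, h2, h3⟩ := rows hr ht hD hG B
  have : ∀ r : Rw F, ∃ f, ∀ g, φ r = some g → g ∈ F ∧ g ∉ B ∧ 0 < μ f ∧
      Row t μ F r.1.1.1 r.1.2 f ∧ mem g r.1.2 (f r.1.2) := by
    intro r
    rcases e : φ r with _ | g
    · exact ⟨r.1.1.1, by simp⟩
    · obtain ⟨a, b, f, c⟩ := h1 r g e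
      exact ⟨f, fun g' e' => Option.some.inj e' ▸ ⟨a, b, c⟩⟩
  choose ρ hρ using this
  let forb : Fin 3 → Fin n → Prop := fun i v =>
    (∃ e ∈ M, e i = v) ∨ ∃ r g, φ r = some g ∧ r.1.2 = i ∧ ρ r i = v
  have one : ∀ g ∈ F, (∃ a, ¬del g a ∧ ∀ i v, mem g i v → forb i v → a i = v) ∨
      ∀ i v, mem g i v → ¬forb i v := by
    intro g hg
    have tg : ∀ r g' i, φ r = some g' → r.1.2 = i → mem g i (ρ r i) → φ r = some g := by
      rintro r g' _ e rfl m
      rw [e, hD _ (hρ r g' e).1 g hg _ _ (hρ r g' e).2.2.2.2 m]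
    by_cases hb : g ∈ B
    · obtain ⟨-, e, he, i, hi⟩ := mem_filter.1 hb
      refine Or.inl ⟨e, (hM e he).2 g hg, ?_⟩
      rintro j _ m (⟨e', he', rfl⟩ | ⟨r, g', a, b, rfl⟩)
      · by_contra c
        exact hM' e he e' he' (fun d => c (by rw [d]))
          (Or.inr ⟨i, j, g, own_eq hD hg hi, own_eq hD hg m⟩)
      · exact absurd hb (hρ r g (tg r g' j a b m)).2.1
    by_cases hr' : ∃ r, φ r = some g
    · obtain ⟨r, e⟩ := hr'
      obtain ⟨-, -, -, a, b⟩ := hρ r g e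
      refine Or.inl ⟨ρ r, (a.ext hD r.2.1 r.2.2 hg b).2, ?_⟩
      rintro j _ m (⟨e', he', rfl⟩ | ⟨r', g', a, b, rfl⟩)
      · exact absurd (mem_filter.2 ⟨hg, e', he', j, m⟩) hb
      · rw [h2 r r' g e (tg r' g' j a b m)]
    · refine Or.inr ?_
      rintro j _ m (⟨e', he', rfl⟩ | ⟨r', g', a, b, rfl⟩)
      exacts [hb (mem_filter.2 ⟨hg, e', he', j, m⟩), hr' ⟨r', tg r' g' j a b m⟩]
  let Z := (univ.filter (φ · = none)).image fun r => r.1.1
  have pick : ∀ g, ∃ q, g ∈ F \ Z → 0 < μ q ∧ ∀ i, (mem g i (q i) ∧ ¬forb i (q i)) ∨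
      ∃ r g', φ r = some g' ∧ r.1 = (g, i) ∧ q = ρ r := by
    intro g
    by_cases hg : g ∈ F \ Z
    swap
    · exact ⟨g.1, fun a => absurd a hg⟩
    obtain ⟨hg, hZ⟩ := mem_sdiff.1 hg
    rcases hG g hg with ⟨a, b⟩ | ⟨a, -⟩
    · obtain ⟨q, q1, q2⟩ : ∃ q, FE g q ∧ ∀ i, ¬forb i (q i) := by
        rcases one g hg with ⟨f, c, d⟩ | c
        · obtain ⟨q, q1, q2⟩ := avoid a fun e => c (Or.inl ⟨fun e => a 0 (by rw [e]), e⟩)
          exact ⟨q, q1, fun i e => q2 i (d i _ (q1.mem i) e).symm⟩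
        · exact ⟨g.1, Or.inl rfl, fun i => c i _ (Or.inl rfl)⟩
      exact ⟨q, fun _ => ⟨(FE_facts hr (by omega) hc a).2 b q q1, fun i => Or.inl ⟨q1.mem i, q2 i⟩⟩⟩
    · obtain ⟨c, hc⟩ : ∃ c, ∀ i ≠ c, ¬forb i (g.1 i) := by
        rcases one g hg with ⟨f, c, d⟩ | c
        · by_cases e : ∃ c, forb c (g.1 c)
          · obtain ⟨k, e⟩ := e
            refine ⟨k, fun i hi e' => ?_⟩
            obtain ⟨l, l1, l2⟩ := third i k hi
            refine c (Or.inr ⟨a, l, fun j hj => ?_⟩)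
            rcases tri i k l hi l1 l2 j with rfl | rfl | rfl
            exacts [d _ _ (Or.inl rfl) e', d _ _ (Or.inl rfl) e, absurd rfl hj]
          · exact ⟨0, fun i _ e' => e ⟨i, e'⟩⟩
        · exact ⟨0, fun i _ => c i _ (Or.inl rfl)⟩
      let r : Rw F := ⟨(g, c), hg, a⟩
      rcases e : φ r with _ | g'
      · exact absurd (mem_image.2 ⟨r, by simpa using e, rfl⟩) hZ
      obtain ⟨-, -, b1, b2, -⟩ := hρ r g' e
      refine ⟨ρ r, fun _ => ⟨b1, fun i => ?_⟩⟩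
      rcases eq_or_ne i c with rfl | hi
      · exact Or.inr ⟨r, g', e, rfl, rfl⟩
      · exact Or.inl ⟨Or.inl (b2.2.1 i hi), (b2.2.1 i hi).symm ▸ hc i hi⟩
  choose ψ hψ using pick
  have d1 : ∀ g ∈ F \ Z, ∀ e ∈ M, ∀ i, ψ g i ≠ e i := by
    intro g hg e he i h
    rcases (hψ g hg).2 i with a | ⟨r, g', a, b, c⟩
    · exact a.2 (Or.inl ⟨e, he, h.symm⟩)
    · obtain ⟨a1, a2, -, -, a3⟩ := hρ r g' a
      rw [b, ← c, h] at a3
      exact a2 (mem_filter.2 ⟨a1, e, he, i, a3⟩)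
  have d2 : ∀ g ∈ F \ Z, ∀ g' ∈ F \ Z, ∀ i, ψ g i = ψ g' i → g = g' := by
    intro g hg g' hg' i h
    rcases (hψ g hg).2 i with a | ⟨r, k, a, b, c⟩ <;> rcases (hψ g' hg').2 i with a' | ⟨r', k', a', b', c'⟩
    · exact hD g (mem_sdiff.1 hg).1 g' (mem_sdiff.1 hg').1 i _ a.1 (h ▸ a'.1)
    · exact absurd (Or.inr ⟨r', k', a', by rw [b'], by rw [h, c']⟩) a.2
    · exact absurd (Or.inr ⟨r, k, a, by rw [b], by rw [← h, c]⟩) a'.2
    · obtain ⟨a1, -, -, -, a3⟩ := hρ r k a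
      obtain ⟨a1', -, -, -, a3'⟩ := hρ r' k' a'
      rw [b, ← c] at a3
      rw [b', ← c', ← h] at a3'
      obtain rfl := hD k a1 k' a1' i _ a3 a3'
      obtain rfl := h2 r r' k a a'
      exact (Prod.ext_iff.1 (b.symm.trans b')).1
  have hmat : IsMatching μ (M ∪ (F \ Z).image ψ) := by
    simp only [IsMatching, mem_union, mem_image]
    refine ⟨?_, ?_⟩
    · rintro e (he | ⟨g, hg, rfl⟩)
      exacts [(hM e he).1, (hψ g hg).1]
    · rintro e (he | ⟨g, hg, rfl⟩) f (hf | ⟨g', hg', rfl⟩) hne i h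
      exacts [hM' e he f hf hne (Or.inl ⟨i, h⟩), d1 g' hg' e he i h.symm, d1 g hg f hf i h,
        hne (by rw [d2 g hg g' hg' i h])]
  obtain ⟨M0, h0⟩ := exists_opt μ
  have c1 := h0.max _ hmat
  rw [← h0.nu_eq, card_union_of_disjoint (disjoint_left.2 fun e he a => by
    obtain ⟨g, hg, rfl⟩ := mem_image.1 a
    exact d1 g hg _ he 0 rfl), card_image_of_injOn fun g hg g' hg' h =>
      d2 g hg g' hg' 0 (by rw [h])] at c1
  have c2 : F.card ≤ (F \ Z).card + (univ.filter (φ · = none)).card :=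
    card_le_card_sdiff_add_card.trans (Nat.add_le_add_left card_image_le _)
  have c3 : ∑ e ∈ M, ind (¬T3 (own F) e) = (M.filter fun e => ¬T3 (own F) e).card := by
    rw [card_filter, Nat.cast_sum]
    exact sum_congr rfl fun e _ => by by_cases h : T3 (own F) e <;> simp [ind, h]
  rw [sum_sub_distrib, ← mul_sum, c3, sum_const, nsmul_eq_mul, mul_one]
  have c1' : (M.card : ℝ) + (F \ Z).card ≤ nu μ := by exact_mod_cast c1
  have c2' : (F.card : ℝ) ≤ (F \ Z).card + (univ.filter (φ · = none)).card := by exact_mod_cast c2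
  have c3' : (B.card : ℝ) ≤ (M.filter fun e => ¬T3 (own F) e).card * 3 := by exact_mod_cast hB
  linarith

theorem final (hr : Regular t μ) (ht : 27 * 10 ^ 6 ≤ t) (hc : copies t μ = ∅) {D : ℕ}
    (hp : (Even t ∧ D = t + 1) ∨ (Odd t ∧ D = t)) : (1 + 1 / D) * ((n : ℝ) / 2) ≤ nu μ := by
  have ht' : 10 ^ 6 ≤ t := by omega
  obtain ⟨F, hD, hG, hM⟩ := exists_fam t μ
  obtain ⟨s, hs⟩ := (pre hr ht' hD hG hM).exists_sys
  have h1 := s.main
  have h2 := s.free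
  rw [hs] at h1 h2
  have h3 := matching hr ht' hc hD hG (fun e he => x2_pos (h2.1 e he)) h2.2
  have h4 := account hr ht' hc hD hG hp
  have t1 : (27 * 10 ^ 6 : ℝ) ≤ D := by exact_mod_cast (show 27 * 10 ^ 6 ≤ D by omega)
  have t2 : (1 : ℝ) / D ≤ 1 / (27 * 10 ^ 6) := one_div_le_one_div_of_le (by norm_num) t1
  have t3 : (0 : ℝ) ≤ 1 / D := by positivity
  have h5 := mul_le_mul_of_nonneg_left h1 (show (0 : ℝ) ≤ 1 + 1 / D by linarith)
  rw [mul_sum] at h5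
  have h6 := h5.trans (sum_le_sum (g := fun e => 1 - 7 / 10 ^ 6 * ind (¬T3 (own F) e)) fun e _ => by
    have := ind_nonneg (¬T3 (own F) e)
    change _ * (_ - _ * ind (¬T3 (own F) e)) ≤ _
    nlinarith)
  exact h4.trans ((add_le_add_right h6 _).trans h3)

end

end Pool.Agent.MP_4b8552_co.H92
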