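import Pool.Agent.MP_4b8552_co.H92.Charge
import Pool.Agent.MP_4b8552_co.H88.Count

/-! Heavy copies of the truncated plane and heavy triples, contracted to super-vertices. -/

namespace Pool.Agent.MP_4b8552_co.H92

open Finset H88
open scoped Classical

noncomputable section

variable {n t : ℕ}

abbrev Gd (n : ℕ) := Ed (Fin n) × Ed (Fin n)

def mem (g : Gd n) (i : Fin 3) (v : Fin n) : Prop := v = g.1 i ∨ v = g.2 i

def FE (g : Gd n) (f : Ed (Fin n)) : Prop := f = g.1 ∨ ∃ i, f = Function.update g.2 i (g.1 i)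

def Pr (T f : Ed (Fin n)) : Prop := ∃ c, f c ≠ T c ∧ ∀ j ≠ c, f j = T j

def del (g : Gd n) (f : Ed (Fin n)) : Prop :=
  (g.1 ≠ g.2 ∧ FE g f) ∨ (g.1 = g.2 ∧ ∃ c, ∀ j ≠ c, f j = g.1 j)

def cnt (g : Gd n) (f : Ed (Fin n)) : ℝ := ∑ i, ind (mem g i (f i))

def ext (g : Gd n) (f : Ed (Fin n)) : Prop := (∃ i, mem g i (f i)) ∧ ¬del g f

def Dis (S : Finset (Gd n)) : Prop := ∀ g ∈ S, ∀ g' ∈ S, ∀ i v, mem g i v → mem g' i v → g = g'

variable (t) (μ : Ed (Fin n) → ℕ)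

def xx (f : Ed (Fin n)) : ℝ := μ f / t

def exp (g : Gd n) : Prop := g.1 ≠ g.2 ∨ 2 * wt (xx t μ) (Pr g.1) + 1 / t = 3

def Row (S : Finset (Gd n)) (T : Ed (Fin n)) (c : Fin 3) (f : Ed (Fin n)) : Prop :=
  f c ≠ T c ∧ (∀ j ≠ c, f j = T j) ∧ ∃ g ∈ S, exp t μ g ∧ mem g c (f c)

def Good (S : Finset (Gd n)) (g : Gd n) : Prop :=
  ((∀ i, g.1 i ≠ g.2 i) ∧ 2 - 1 / (3 * 10 ^ 6) ≤ wt (xx t μ) (FE g)) ∨
    (g.1 = g.2 ∧ 3 / 2 - 1 / 500 ≤ wt (xx t μ) fun f => ∃ c, Row t μ S g.1 c f)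

lemma xx_nonneg (f : Ed (Fin n)) : 0 ≤ xx t μ f := by unfold xx; positivity

lemma exists_fam : ∃ S : Finset (Gd n), Dis S ∧ (∀ g ∈ S, Good t μ S g) ∧
    ∀ g, Good t μ S g → ∃ g' ∈ S, ∃ i v, mem g i v ∧ mem g' i v := by
  obtain ⟨S, ⟨h1, h2⟩, h3⟩ := Set.exists_max_image {S | Dis S ∧ ∀ g ∈ S, Good t μ S g} card
    (Set.toFinite _) ⟨∅, by simp [Dis]⟩
  refine ⟨S, h1, h2, fun g hg => ?_⟩
  by_contra h
  push Not at h
  have mono : ∀ a, Good t μ S a → Good t μ (insert g S) a := fun a ha => ha.imp_right fun b =>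
    ⟨b.1, b.2.trans (wt_mono (xx_nonneg t μ) fun f _ ⟨c, d1, d2, g', d3, d4⟩ =>
      ⟨c, d1, d2, g', mem_insert_of_mem d3, d4⟩)⟩
  have := h3 (insert g S) ⟨?_, ?_⟩
  · rw [card_insert_of_notMem fun a => h g a 0 _ (Or.inl rfl) (Or.inl rfl)] at this
    omega
  · simp only [Dis, mem_insert]
    rintro a (rfl | ha) b (rfl | hb) i v c d
    exacts [rfl, absurd d (h b hb i v c), absurd c (h a ha i v d), h1 a ha b hb i v c d]
  · intro a ha
    rcases mem_insert.1 ha with rfl | ha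
    exacts [mono _ hg, mono _ (h2 a ha)]

variable {t μ}

lemma wt_xx (A : Ed (Fin n) → Prop) [DecidablePred A] :
    wt (xx t μ) A = (∑ f with A f, μ f : ℕ) / t := by
  simp only [wt, S, xx, sum_filter, Nat.cast_sum, sum_div]
  exact sum_congr rfl fun f _ => by by_cases h : A f <;> simp [ind, h]

lemma load_eq (hr : Regular t μ) (ht : 0 < t) (i : Fin 3) (v : Fin n) :
    wt (xx t μ) (fun f => f i = v) = 1 := by
  rw [wt_xx, hr i v, div_self (by positivity)]

lemma S_one (hr : Regular t μ) (ht : 0 < t) : S (xx t μ) (fun _ => 1) = n := by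
  have := wt_fib (x := xx t μ) (fun _ => True) 0
  simp only [true_and, load_eq hr ht] at this
  simpa [wt, ind_pos trivial] using this

lemma pair_le (hr : Regular t μ) {e f : Ed (Fin n)} (h : e ≠ f) {i : Fin 3} (hi : e i = f i) :
    μ e + μ f ≤ t := by
  rw [← hr i (f i), ← sum_pair h]
  exact sum_le_sum_of_subset (by simp [insert_subset_iff, hi])

lemma FE_facts (hr : Regular t μ) (ht : 0 < t) (hc : copies t μ = ∅) {g : Gd n}
    (h : ∀ i, g.1 i ≠ g.2 i) : wt (xx t μ) (FE g) ≤ 2 - 1 / t ∧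
      (2 - 1 / (3 * 10 ^ 6) ≤ wt (xx t μ) (FE g) → ∀ f, FE g f → 0 < μ f) := by
  obtain ⟨a, b⟩ := g
  have hx := xx_nonneg t μ
  have h1 := wt_or hx (A := FE (a, b)) fun _ _ h => h
  have h2 := wt_ex3 hx fun i f => f = Function.update b i (a i)
  have h3 := fun g => wt_single hx (A := fun f => f = g) g fun _ h => h
  have h4 : ∀ i, μ a + μ (Function.update b i (a i)) ≤ t := fun i => by
    obtain ⟨p, -, -, hp, -⟩ := others i
    exact pair_le hr (i := i) (fun e => h p (by simpa [hp.symm] using congrFun e p)) (by simp)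
  have h5 : ∀ i j, i ≠ j → μ (Function.update b i (a i)) + μ (Function.update b j (a j)) ≤ t := by
    intro i j hij
    obtain ⟨k, k1, k2⟩ := third i j hij
    exact pair_le hr (i := k) (fun e => h i (by simpa [hij] using congrFun e i)) (by simp [k1, k2])
  have h6 : ¬(2 * μ a = t ∧ ∀ i, 2 * μ (Function.update b i (a i)) = t) := fun c =>
    Set.eq_empty_iff_forall_notMem.1 hc (fun i => {a i, b i}) ⟨a, b, h, fun _ => rfl, c⟩
  rw [Fin.sum_univ_three] at h2
  rw [Fin.forall_fin_succ, Fin.forall_fin_two] at h6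
  have c0 := h4 0; have c1 := h4 1; have c2 := h4 2
  have c3 := h5 0 1 (by decide); have c4 := h5 0 2 (by decide); have c5 := h5 1 2 (by decide)
  have h7 : wt (xx t μ) (FE (a, b)) * t ≤ (μ a + μ (Function.update b 0 (a 0)) +
      μ (Function.update b 1 (a 1)) + μ (Function.update b 2 (a 2)) : ℕ) := by
    rw [← le_div_iff₀ (by positivity)]
    have d0 := h3 a; have d1 := h3 (Function.update b 0 (a 0))
    have d2 := h3 (Function.update b 1 (a 1)); have d3 := h3 (Function.update b 2 (a 2))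
    simp only [xx] at d0 d1 d2 d3
    push_cast
    simp only [add_div]
    linarith
  have ht' : (0 : ℝ) < t := by positivity
  have key : ∀ m : ℕ, wt (xx t μ) (FE (a, b)) * t ≤ m → 2 * m ≤ 3 * t →
      ¬2 - 1 / (3 * 10 ^ 6) ≤ wt (xx t μ) (FE (a, b)) := by
    intro m d1 d2 d3
    have : (2 : ℝ) * m ≤ 3 * t := by exact_mod_cast d2
    nlinarith
  constructor
  · have : μ a + μ (Function.update b 0 (a 0)) + μ (Function.update b 1 (a 1)) +
        μ (Function.update b 2 (a 2)) + 1 ≤ 2 * t := by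
      simp only [Fin.succ_zero_eq_one, Fin.succ_one_eq_two] at h6
      omega
    have d : ((μ a + μ (Function.update b 0 (a 0)) + μ (Function.update b 1 (a 1)) +
        μ (Function.update b 2 (a 2)) : ℕ) : ℝ) + 1 ≤ 2 * t := by exact_mod_cast this
    rw [le_sub_iff_add_le, ← le_sub_iff_add_le', div_le_iff₀ ht']
    linarith
  · rintro d f (rfl | ⟨i, rfl⟩)
    · by_contra e; exact key _ h7 (by omega) d
    · by_contra e
      fin_cases i <;> exact key _ h7 (by simp only [Fin.zero_eta, Fin.mk_one, Fin.reduceFinMk] at e; omega) d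

lemma avoid {g : Gd n} (h : ∀ i, g.1 i ≠ g.2 i) {f : Ed (Fin n)} (hf : ¬FE g f) :
    ∃ q, FE g q ∧ ∀ i, q i ≠ f i := by
  by_contra h'
  push Not at h'
  have a0 := h' _ (Or.inl rfl)
  have a1 := h' _ (Or.inr ⟨0, rfl⟩)
  have a2 := h' _ (Or.inr ⟨1, rfl⟩)
  have a3 := h' _ (Or.inr ⟨2, rfl⟩)
  have b0 := h 0; have b1 := h 1; have b2 := h 2
  simp only [FE, funext_iff, Fin.exists_fin_succ, Fin.forall_fin_succ] at hf a0 a1 a2 a3
  simp at hf a0 a1 a2 a3
  grind

lemma S_cnt (hr : Regular t μ) (ht : 0 < t) (g : Gd n) :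
    ((∀ i, g.1 i ≠ g.2 i) → S (xx t μ) (cnt g) = 6) ∧ (g.1 = g.2 → S (xx t μ) (cnt g) = 3) := by
  have h0 : S (xx t μ) (cnt g) = ∑ i, wt (xx t μ) fun f => mem g i (f i) :=
    S_sum _ univ fun i f => ind (mem g i (f i))
  have hx := xx_nonneg t μ
  refine ⟨fun h => ?_, fun h => ?_⟩
  · have : ∀ i, wt (xx t μ) (fun f => mem g i (f i)) = 2 := fun i => by
      have a := wt_or hx (A := fun f => mem g i (f i)) fun _ _ h => h
      have b := wt_disj hx (C := fun f => mem g i (f i)) (fun _ _ => Or.inl) (fun _ _ => Or.inr)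
        fun f _ a b => h i (a.symm.trans b)
      rw [load_eq hr ht, load_eq hr ht] at a b
      linarith
    simp [h0, this]; norm_num
  · simp [h0, mem, ← h, load_eq hr ht]

lemma one_le_cnt {g : Gd n} {f : Ed (Fin n)} (h : ext g f) : 1 ≤ cnt g f := by
  obtain ⟨i, hi⟩ := h.1
  rw [← ind_pos hi]
  exact single_le_sum (f := fun i => ind (mem g i (f i))) (fun _ _ => ind_nonneg _) (mem_univ i)

lemma cnt_nonneg (g : Gd n) (f : Ed (Fin n)) : 0 ≤ cnt g f := sum_nonneg fun _ _ => ind_nonneg _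

lemma FE.mem {g : Gd n} {f : Ed (Fin n)} (h : FE g f) (i : Fin 3) : mem g i (f i) := by
  rcases h with rfl | ⟨j, rfl⟩
  · exact Or.inl rfl
  · rcases eq_or_ne i j with rfl | h
    exacts [Or.inl (by simp), Or.inr (by simp [h])]

lemma ext_F (hr : Regular t μ) (ht : 0 < t) {g : Gd n} (h : ∀ i, g.1 i ≠ g.2 i) :
    3 * wt (xx t μ) (FE g) + wt (xx t μ) (ext g) ≤ 6 := by
  rw [← (S_cnt hr ht g).1 h, wt, wt, ← S_mul, ← S_add]
  refine S_le (xx_nonneg t μ) fun f _ => ?_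
  by_cases a : FE g f
  · rw [ind_pos a, ind_neg fun b => b.2 (Or.inl ⟨fun e => h 0 (by rw [e]), a⟩)]
    simp [cnt, ind_pos (a.mem _)]
  · rw [ind_neg a]
    by_cases b : ext g f
    exacts [by linarith [ind_pos b, one_le_cnt b], by linarith [ind_neg b, cnt_nonneg g f]]

lemma ext_T (hr : Regular t μ) (ht : 0 < t) {g : Gd n} (h : g.1 = g.2) :
    3 * wt (xx t μ) (fun f => f = g.1) + 2 * wt (xx t μ) (Pr g.1) + wt (xx t μ) (ext g) ≤ 3 := by
  refine le_of_le_of_eq ?_ ((S_cnt hr ht g).2 h)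
  rw [wt, wt, wt, ← S_mul, ← S_mul, ← S_add, ← S_add]
  refine S_le (xx_nonneg t μ) fun f _ => ?_
  by_cases a : f = g.1
  · rw [ind_pos a, ind_neg fun ⟨c, b, _⟩ => b (by rw [a]),
      ind_neg fun b => b.2 (Or.inr ⟨h, 0, fun _ _ => by rw [a]⟩)]
    simp [cnt, a, ind_pos (p := mem g _ _) (Or.inl rfl)]
  rw [ind_neg a]
  by_cases b : Pr g.1 f
  · obtain ⟨c, b1, b2⟩ := id b
    obtain ⟨p, q, d1, d2, d3⟩ := others c
    rw [ind_pos b, ind_neg fun b => b.2 (Or.inr ⟨h, c, b2⟩), cnt, sum3 d1 d2 d3,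
      ind_pos (p := mem g p _) (Or.inl (b2 p d2.symm)), ind_pos (p := mem g q _) (Or.inl (b2 q d3.symm))]
    linarith [ind_nonneg (mem g c (f c))]
  · rw [ind_neg b]
    by_cases b : ext g f
    exacts [by linarith [ind_pos b, one_le_cnt b], by linarith [ind_neg b, cnt_nonneg g f]]

lemma ext_load (hr : Regular t μ) (ht : 10 ^ 6 ≤ t) {S : Finset (Gd n)} {g : Gd n}
    (h : Good t μ S g) :
    wt (xx t μ) (ext g) ≤ 1 / 250 ∧ (exp t μ g → wt (xx t μ) (ext g) ≤ 1 / 10 ^ 6) := by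
  have ht' : 0 < t := by omega
  have hx := xx_nonneg t μ
  rcases h with ⟨a, b⟩ | ⟨a, b⟩
  · have := ext_F hr ht' a
    exact ⟨by linarith, fun _ => by linarith⟩
  · have c := ext_T hr ht' a
    have d := wt_nonneg hx fun f => f = g.1
    have e := wt_mono hx (A := fun f => ∃ c, Row t μ S g.1 c f) (B := Pr g.1)
      fun f _ ⟨c, h⟩ => ⟨c, h.1, h.2.1⟩
    refine ⟨by linarith, fun h => ?_⟩
    have f := h.resolve_left (not_not.2 a)
    have : (1 : ℝ) / t ≤ 1 / 10 ^ 6 := one_div_le_one_div_of_le (by norm_num) (by exact_mod_cast ht)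
    linarith

end

end Pool.Agent.MP_4b8552_co.H92
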