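import Pool.Agent.MP_4b8552_co.H92.Basic

/-! Local exchange facts for the optimal family. -/

namespace Pool.Agent.MP_4b8552_co.H92

open Finset
open scoped Classical

noncomputable section

variable {V G : Type} [Fintype V]

namespace Sys
variable (s : Sys V G)

def cov (i : Fin 3) (v : V) : Prop := ∃ e ∈ s.M, e i = v

def Rm (f : Ed V) : Prop := s.Rem f ∧ ∀ e ∈ s.M, ∀ i, f i = e i → T3 s.own e ∨ T2 s.own e

def priv (e f : Ed V) : Prop := ∀ i, s.cov i (f i) → f i = e i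

def P1 (e : Ed V) (i : Fin 3) (f : Ed V) : Prop := s.Rm f ∧ f i = e i ∧ ∀ j ≠ i, ¬s.cov j (f j)

def P (e f : Ed V) : Prop := ∃ i, s.P1 e i f

def use (e : Ed V) (i : Fin 3) : Prop := ∃ f, s.P1 e i f

structure Sp (f e : Ed V) (i : Fin 3) (e' : Ed V) (j l : Fin 3) : Prop where
  rm : s.Rm f
  he : e ∈ s.M
  he' : e' ∈ s.M
  ne : e ≠ e'
  hi : f i = e i
  hj : f j = e' j
  ij : i ≠ j
  li : l ≠ i
  lj : l ≠ j
  unc : ¬s.cov l (f l)

variable {s} {e e' f g : Ed V} {i j l p q c : Fin 3}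

lemma cov_of (he : e ∈ s.M) (h : f i = e i) : s.cov i (f i) := ⟨e, he, h.symm⟩

lemma Rem.cov_R (h : s.Rem f) (hc : s.cov i (f i)) : s.own i (f i) = none := by
  obtain ⟨e, he, h1⟩ := hc
  rcases h2 : s.own i (f i) with _ | a
  · rfl
  · exact absurd ⟨i, i, a, h2, h1 ▸ h2⟩ (h.2 e he)

lemma priv.nb (h : s.priv e f) (he : e ∈ s.M) {D : List (Ed V)} (hD : e ∈ D) : s.Nb f D :=
  fun e' he' i hi => s.uniq he he' ((h i (cov_of he' hi)).symm.trans hi) ▸ hD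

lemma P1.priv (h : s.P1 e i f) : s.priv e f := fun j hj => by
  obtain rfl : j = i := by by_contra h'; exact h.2.2 j h' hj
  exact h.2.1

lemma P1.ne (h : s.P1 e i f) (he' : e' ∈ s.M) (hj : j ≠ i) : f j ≠ e' j :=
  fun h' => h.2.2 j hj (cov_of he' h')

lemma P1.ne' (h : s.P1 e i f) (he : e ∈ s.M) (he' : e' ∈ s.M) (hne : e ≠ e') (j) : f j ≠ e' j := by
  rcases eq_or_ne j i with rfl | hj
  · exact fun h' => hne (s.uniq he he' (h.2.1.symm.trans h'))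
  · exact h.ne he' hj

lemma P1.excl (h : s.P1 e i f) (he : e ∈ s.M) (h' : s.P1 e j f) : i = j := by
  by_contra h1; exact h'.ne he h1 h.2.1

lemma P.excl (h : s.P e f) (he : e ∈ s.M) (he' : e' ∈ s.M) (hne : e ≠ e') (h' : s.P e' f) : False := by
  obtain ⟨i, h⟩ := h; obtain ⟨j, h'⟩ := h'
  exact h.ne' he he' hne j h'.2.1

lemma Sp.symm (h : s.Sp f e i e' j l) : s.Sp f e' j e i l :=
  ⟨h.rm, h.he', h.he, h.ne.symm, h.hj, h.hi, h.ij.symm, h.lj, h.li, h.unc⟩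

lemma Sp.nbr (h : s.Sp f e i e' j l) {a : Ed V} (ha : a ∈ s.M) {k : Fin 3} (hk : f k = a k) :
    (a = e ∧ k = i) ∨ (a = e' ∧ k = j) := by
  rcases tri i j l h.ij h.li h.lj k with rfl | rfl | rfl
  · exact Or.inl ⟨s.uniq ha h.he (hk.symm.trans h.hi), rfl⟩
  · exact Or.inr ⟨s.uniq ha h.he' (hk.symm.trans h.hj), rfl⟩
  · exact absurd (cov_of ha hk) h.unc

lemma Sp.nb (h : s.Sp f e i e' j l) {D : List (Ed V)} (hD : e ∈ D) (hD' : e' ∈ D) : s.Nb f D :=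
  fun a ha k hk => (h.nbr ha hk).elim (fun h => h.1 ▸ hD) fun h => h.1 ▸ hD'

lemma Sp.notP (h : s.Sp f e i e' j l) {a : Ed V} {k : Fin 3} : ¬s.P1 a k f := fun h' => by
  rcases eq_or_ne i k with rfl | hk
  exacts [h'.ne h.he' h.ij.symm h.hj, h'.ne h.he hk h.hi]

lemma Sp.sup (h : s.Sp f e i e' j l) (hf : T2 s.own f) : ∃ a, s.own l (f l) = some a := by
  obtain ⟨k, a, h1, -⟩ := hf
  rcases tri i j l h.ij h.li h.lj k with rfl | rfl | rfl
  · simp [h.rm.1.cov_R (cov_of h.he h.hi)] at h1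
  · simp [h.rm.1.cov_R (cov_of h.he' h.hj)] at h1
  · exact ⟨a, h1⟩

lemma Sp.nocf (h : s.Sp f e i e' j l) (hg : s.P1 e q g) (hq : q ≠ i) (hl : g l ≠ f l)
    (hs : ¬SS s.own f g) : ¬Cf s.own f g := by
  rintro (⟨k, hk⟩ | h')
  · rcases tri i j l h.ij h.li h.lj k with rfl | rfl | rfl
    · exact hg.ne h.he hq.symm (hk.symm.trans h.hi)
    · exact hg.ne' h.he h.he' h.ne _ (hk.symm.trans h.hj)
    · exact hl hk.symm
  · exact hs h'

lemma Sp.nocf' (h : s.Sp f e i e' j l) (hf : T2 s.own f) (hg : s.P1 e q g) (hq : q ≠ i)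
    (hs : ¬SS s.own f g) : ¬Cf s.own f g := by
  obtain ⟨a, ha⟩ := h.sup hf
  exact h.nocf hg hq (fun h' => hs ⟨l, l, a, ha, h' ▸ ha⟩) hs

lemma Rem.meets (h : s.Rem f) : ∃ e ∈ s.M, ∃ i, f i = e i := by
  by_contra h'
  have := s.swap [f] [] (by simpa using ⟨h, fun e he i hi => absurd ⟨e, he, i, hi⟩ h'⟩) (by simp)
  simp at this
  linarith [(s.val_bd f).1, pri_ge (own := s.own) (ex := s.ex) (f := f)]

lemma sw1 (he : e ∈ s.M) (hf : s.Rem f) (h : s.priv e f) : s.val f ≤ s.val e := by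
  simpa using s.swap [f] [e] (by simpa using ⟨hf, h.nb he (by simp)⟩) (by simp)

lemma pri_le (h : T3 s.own e ∨ T2 s.own e) : pri s.own s.ex e ≤ 170 :=
  h.elim (fun h => by rw [h.pri]; norm_num) fun h => h.pri.2

lemma Rm.type (h : s.Rm f) : T3 s.own f ∨ T2 s.own f := by
  by_contra h'
  obtain ⟨e, he, i, hi⟩ := h.1.meets
  have := sw1 he h.1 fun j hj => by
    by_contra h1
    exact h' (two_R (by rintro rfl; exact h1 hi) (h.1.cov_R (cov_of he hi)) (h.1.cov_R hj))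
  linarith [(s.val_bd f).1, (s.val_bd e).2, pri_le (h.2 e he i hi),
    pri_low (ex := s.ex) (h' ∘ Or.inl) (h' ∘ Or.inr)]

lemma priv3 (he : e ∈ s.M) (h3 : T3 s.own e) (hf : s.Rem f) (h : s.priv e f) :
    T3 s.own f ∧ s.x f ≤ s.x e := by
  have h1 := sw1 he hf h
  have h2 : T3 s.own f := by
    by_contra h'
    linarith [(s.val_bd f).1, (s.val_bd e).2, pri_ge' (ex := s.ex) h', h3.pri (ex := s.ex)]
  refine ⟨h2, ?_⟩
  simp only [Pre.val, h2.pri, h3.pri] at h1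
  linarith

lemma privH (he : e ∈ s.M) (h2 : T2 s.own e) (hf : s.Rem f) (h : s.priv e f)
    (hH : TH s.own s.ex f) : TH s.own s.ex e := by
  by_contra h'
  linarith [sw1 he hf h, (s.val_bd f).1, (s.val_bd e).2, hH.pri, h2.pri' h']

lemma privCf (he : e ∈ s.M) (h3 : T3 s.own e ∨ T2 s.own e) (hf : s.Rem f) (h : s.priv e f)
    (hg : s.Rem g) (h' : s.priv e g) : Cf s.own f g := by
  by_contra hc
  have := s.swap [f, g] [e] (by simpa using ⟨⟨hf, h.nb he (by simp)⟩, hg, h'.nb he (by simp)⟩)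
    (by simpa using hc)
  simp at this
  linarith [(s.val_bd f).1, (s.val_bd g).1, (s.val_bd e).2, pri_le h3,
    pri_ge (own := s.own) (ex := s.ex) (f := f), pri_ge (own := s.own) (ex := s.ex) (f := g)]

lemma meet2 (he : e ∈ s.M) (hf : s.P1 e p f) (hg : s.P1 e q g) (h1 : p ≠ q) (h2 : c ≠ p)
    (h3 : c ≠ q) : f c = g c ∨ SS s.own f g := by
  refine (privCf he (hf.1.2 e he p hf.2.1) hf.1.1 hf.priv hg.1.1 hg.priv).imp_left ?_
  rintro ⟨k, hk⟩
  rcases tri p q c h1 h2 h3 k with rfl | rfl | rfl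
  exacts [absurd (hk.symm.trans hf.2.1) (hg.ne he h1), absurd (hk.trans hg.2.1) (hf.ne he h1.symm), hk]

lemma sw22 (h : s.Sp f e i e' j l) (hg : s.P1 e q g) (hc : ¬Cf s.own f g) :
    pri s.own s.ex f + pri s.own s.ex g ≤ pri s.own s.ex e + pri s.own s.ex e' + 2 := by
  have := s.swap [f, g] [e, e'] (by
    simpa using ⟨⟨h.rm.1, h.nb (by simp) (by simp)⟩, hg.1.1, hg.priv.nb h.he (by simp)⟩)
    (by simpa using hc)
  simp at this
  linarith [(s.val_bd f).1, (s.val_bd g).1, (s.val_bd e).2, (s.val_bd e').2]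

lemma sw23 {q' : Fin 3} {g' : Ed V} (h : s.Sp f e i e' j l) (hg : s.P1 e q g) (hg' : s.P1 e' q' g')
    (hc : ¬Cf s.own f g) (hc' : ¬Cf s.own f g') (hc'' : ¬Cf s.own g g') :
    pri s.own s.ex f + pri s.own s.ex g + pri s.own s.ex g' ≤
      pri s.own s.ex e + pri s.own s.ex e' + 2 := by
  have := s.swap [f, g, g'] [e, e'] (by
    simpa using ⟨⟨h.rm.1, h.nb (by simp) (by simp)⟩, ⟨hg.1.1, hg.priv.nb h.he (by simp)⟩,
      hg'.1.1, hg'.priv.nb h.he' (by simp)⟩) (by simpa using ⟨⟨hc, hc'⟩, hc''⟩)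
  simp at this
  linarith [(s.val_bd f).1, (s.val_bd g).1, (s.val_bd g').1, (s.val_bd e).2, (s.val_bd e').2]

variable (s) in
/-- `H` edges at port `i` of `e` whose other end lies in a 3-edge of the family. -/
def HX (e : Ed V) (i : Fin 3) (f : Ed V) : Prop :=
  ∃ e' j l, s.Sp f e i e' j l ∧ TH s.own s.ex f ∧ T3 s.own e'

lemma HX.use (h : s.HX e i f) (h3 : T3 s.own e) (hq : s.use e q) : q = i := by
  obtain ⟨e', j, l, h, hH, h3'⟩ := h
  obtain ⟨g, hg⟩ := hq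
  by_contra hq
  have hg3 := (priv3 h.he h3 hg.1.1 hg.priv).1
  have := sw22 h hg (h.nocf' hH.t2 hg hq fun h => hg3.noSS h.symm)
  rw [hH.pri, hg3.pri, h3.pri, h3'.pri] at this
  norm_num at this

lemma HX_wt (h3 : T3 s.own e) : wt s.x (fun f => ∃ i, s.HX e i f) ≤ 2 + 1 / 10 ^ 6 := by
  by_cases h0 : ∃ g i, s.HX e i g
  swap
  · rw [wt_zero s.hx fun f _ h => h0 ⟨f, h⟩]; norm_num
  obtain ⟨g, i, e', j, l, hg, hH, h3'⟩ := h0
  have h1 := wt_or s.hx (A := fun f => ∃ i, s.HX e i f) (B := fun f => f i = g i ∨ f j = g j)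
    (C := fun f => SS s.own f g) (by
    rintro f - ⟨i', e'', j', l', hf, hH', h3''⟩
    by_contra hc
    have hc' : ¬Cf s.own f g := by
      rintro (⟨k, hk⟩ | h')
      · rcases tri i j l hg.ij hg.li hg.lj k with rfl | rfl | rfl
        exacts [hc (Or.inl (Or.inl hk)), hc (Or.inl (Or.inr hk)),
          (hg.sup hH.t2).elim fun a ha => hc (Or.inr ⟨k, k, a, hk ▸ ha, ha⟩)]
      · exact hc (Or.inr h')
    have := s.swap [f, g] [e, e', e''] (by
      simpa using ⟨⟨hf.rm.1, hf.nb (by simp) (by simp)⟩, hg.rm.1, hg.nb (by simp) (by simp)⟩)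
      (by simpa using hc')
    simp at this
    linarith [(s.val_bd f).1, (s.val_bd g).1, (s.val_bd e).2, (s.val_bd e').2, (s.val_bd e'').2,
      hH.pri, hH'.pri, h3.pri (ex := s.ex), h3'.pri (ex := s.ex), h3''.pri (ex := s.ex)])
  have h2 := wt_or s.hx (A := fun f => f i = g i ∨ f j = g j) fun _ _ h => h
  linarith [s.load i (g i), s.load j (g j), (s.wt_SS g).2.2.2 hH]

variable (s) in
/-- A centre of the private edges. -/
def Cen (e : Ed V) (c : Fin 3) (z : V) : Prop :=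
  (∀ f, s.P e f → f c = z) ∧
    ((z = e c ∧ ∀ i ≠ c, ¬s.use e i) ∨ (¬s.cov c z ∧ ¬s.use e c ∧ ∀ i ≠ c, s.use e i))

lemma meet3 (he : e ∈ s.M) (h : T3 s.own e) (hf : s.P1 e p f) (hg : s.P1 e q g) (h1 : p ≠ q)
    (h2 : c ≠ p) (h3 : c ≠ q) : f c = g c :=
  (meet2 he hf hg h1 h2 h3).resolve_right (priv3 he h hf.1.1 hf.priv).1.noSS

lemma centre (he : e ∈ s.M) (h : T3 s.own e) : (∃ c z, s.Cen e c z) ∨ ∀ i, s.use e i := by
  by_cases h1 : ∃ p q, p ≠ q ∧ s.use e p ∧ s.use e q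
  · obtain ⟨p, q, h1, ⟨f, hf⟩, g, hg⟩ := h1
    obtain ⟨c, h2, h3⟩ := third p q h1
    by_cases hc : s.use e c
    · refine Or.inr fun i => ?_
      rcases tri p q c h1 h2 h3 i with rfl | rfl | rfl
      exacts [⟨f, hf⟩, ⟨g, hg⟩, hc]
    refine Or.inl ⟨c, f c, ?_, Or.inr ⟨hf.2.2 c h2, hc, fun i hi => ?_⟩⟩
    · rintro a ⟨k, ha⟩
      rcases tri p q c h1 h2 h3 k with rfl | rfl | rfl
      exacts [(meet3 he h ha hg h1 h2 h3).trans (meet3 he h hf hg h1 h2 h3).symm,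
        (meet3 he h hf ha h1 h2 h3).symm, absurd ⟨a, ha⟩ hc]
    · rcases tri p q c h1 h2 h3 i with rfl | rfl | rfl
      exacts [⟨f, hf⟩, ⟨g, hg⟩, absurd rfl hi]
  · have : ∃ c, ∀ i ≠ c, ¬s.use e i := by
      by_cases h2 : ∃ c, s.use e c
      · obtain ⟨c, hc⟩ := h2
        exact ⟨c, fun i hi h => h1 ⟨i, c, hi, h, hc⟩⟩
      · exact ⟨0, fun i _ h => h2 ⟨i, h⟩⟩
    obtain ⟨c, hc⟩ := this
    refine Or.inl ⟨c, e c, ?_, Or.inl ⟨rfl, hc⟩⟩
    rintro f ⟨i, hf⟩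
    obtain rfl : i = c := by by_contra h'; exact hc i h' ⟨f, hf⟩
    exact hf.2.1

lemma Cen.wt_le {z : V} (h : s.Cen e c z) : wt s.x (s.P e) ≤ 1 :=
  (wt_mono s.hx fun f _ => h.1 f).trans (s.load c z)

lemma ftype (he : e ∈ s.M) (h : T3 s.own e) (hu : ∀ i, s.use e i) :
    wt s.x (s.P e) ≤ 3 * s.x e ∧ s.x e + wt s.x (s.P e) ≤ 2 - 1 / (3 * 10 ^ 6) := by
  choose g hg using hu
  have hs : ∀ c : Fin 3, c ≠ c + 1 := by decide
  have key : ∀ j f, s.P1 e j f → f = Function.update (fun c => g (c + 1) c) j (e j) := by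
    intro j f hf
    funext c
    rcases eq_or_ne c j with rfl | hc
    · simp [hf.2.1]
    rw [Function.update_of_ne hc]
    rcases eq_or_ne j (c + 1) with rfl | hj
    · obtain ⟨k, h1, h2⟩ := third _ _ (hs c)
      exact (meet3 he h hf (hg k) h2.symm hc h1.symm).trans
        (meet3 he h (hg _) (hg k) h2.symm hc h1.symm).symm
    · exact meet3 he h hf (hg _) hj hc (hs c)
  have h1 : wt s.x (s.P e) ≤ ∑ j, s.x (Function.update (fun c => g (c + 1) c) j (e j)) :=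
    (wt_ex3 s.hx (s.P1 e)).trans (sum_le_sum fun j _ => wt_single s.hx _ (key j))
  have h2 := s.NF e (fun c => g (c + 1) c) h
    (fun c => (priv3 he h (hg _).1.1 (hg _).priv).1 c) fun c => ((hg _).ne he (hs c)).symm
  have h3 : ∀ j, s.x (Function.update (fun c => g (c + 1) c) j (e j)) ≤ s.x e := fun j =>
    key j _ (hg j) ▸ (priv3 he h (hg j).1.1 (hg j).priv).2
  have h4 := (wt_disj s.hx (A := fun f => f = e) (B := s.P e) (fun _ _ => Or.inl)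
    (fun f _ ⟨j, hf⟩ => Or.inr ⟨j, key j f hf⟩)
    fun f _ a ⟨j, hf⟩ => hf.ne he (hs j).symm (by rw [a])).trans h2
  have h5 : s.x e ≤ wt s.x fun f => f = e := le_wt s.hx rfl
  rw [Fin.sum_univ_three] at h1
  constructor <;> linarith [h3 0, h3 1, h3 2]

variable (s) in
def tight (e : Ed V) : Prop := T3 s.own e ∧ 99 / 100 < wt s.x (s.P e) ∧ s.x e < 1 / 100

variable (s) in
def NP (g : Ed V) : Prop := ¬∃ e ∈ s.M, s.P e g

variable (s) in
def bad (e : Ed V) (l : Fin 3) (u : V) : Prop :=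
  2 / 5 ≤ wt s.x (fun g => s.P e g ∧ g l = u) ∧ wt s.x (fun g => s.NP g ∧ g l = u) ≤ 1 / 25

variable (s) in
def Exc (e f : Ed V) : Prop := ∃ l, s.NP f ∧ s.bad e l (f l)

lemma exc_wt (h : wt s.x (s.P e) ≤ 1) : wt s.x (s.Exc e) ≤ 3 / 10 := by
  have h1 := wt_ex3 s.hx fun l f => s.NP f ∧ s.bad e l (f l)
  have h2 : ∀ l, wt s.x (fun f => s.NP f ∧ s.bad e l (f l)) ≤ 1 / 10 * wt s.x (s.P e) := fun l =>
    wt_fiber s.hx l (by norm_num) fun u hu => by linarith [hu.1, hu.2]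
  rw [Fin.sum_univ_three] at h1
  exact h1.trans (by linarith [h2 0, h2 1, h2 2])

lemma tight.cen (h : s.tight e) (he : e ∈ s.M) : ∃ c z, s.Cen e c z :=
  (centre he h.1).resolve_right fun hu => by linarith [(ftype he h.1 hu).1, h.2.1, h.2.2]

lemma PP_load (he : e ∈ s.M) (he' : e' ∈ s.M) (hne : e ≠ e') (m : Fin 3) (u : V) :
    wt s.x (fun g => s.P e g ∧ g m = u) + wt s.x (fun g => s.P e' g ∧ g m = u) +
      wt s.x (fun g => s.NP g ∧ g m = u) ≤ 1 :=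
  (wt_disj3 s.hx (fun _ _ h => h.2) (fun _ _ h => h.2) (fun _ _ h => h.2)
    (fun _ _ h h' => h.1.excl he he' hne h'.1) (fun _ _ h h' => h'.1 ⟨e, he, h.1⟩)
    fun _ _ h h' => h'.1 ⟨e', he', h.1⟩).trans (s.load m u)

lemma tight_swap (h : s.Sp f e i e' j l) (hf : T3 s.own f) (ht : s.tight e) (ht' : s.tight e')
    (hu : ¬s.use e i) (hx : ¬s.Exc e f) (hx' : ¬s.Exc e' f) : False := by
  obtain ⟨c, z, hc⟩ := ht.cen h.he
  obtain ⟨c', z', hc'⟩ := ht'.cen h.he'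
  have np : s.NP f := fun ⟨_, _, _, h'⟩ => h.notP h'
  have hsum : ∀ m, wt s.x (fun g => s.P e g ∧ g m = f m) + wt s.x (fun g => s.P e' g ∧ g m = f m) <
      24 / 25 := by
    intro m
    have h1 := PP_load h.he h.he' h.ne m (f m)
    have h2 : ¬s.bad e m (f m) := fun b => hx ⟨m, np, b⟩
    have h3 : ¬s.bad e' m (f m) := fun b => hx' ⟨m, np, b⟩
    simp only [bad, not_and_or, not_le] at h2 h3
    rcases h2 with h2 | h2 <;> rcases h3 with h3 | h3 <;> linarith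
  have nn := fun A => wt_nonneg s.hx A
  have w1 : wt s.x (s.P e) ≤ _ := wt_mono s.hx (B := fun g => s.P e g ∧ g c = z) fun g _ a => ⟨a, hc.1 g a⟩
  have w2 : wt s.x (s.P e') ≤ _ :=
    wt_mono s.hx (B := fun g => s.P e' g ∧ g c' = z') fun g _ a => ⟨a, hc'.1 g a⟩
  have w3 := PP_load h.he h.he' h.ne c z
  have w4 := PP_load h.he h.he' h.ne c' z'
  have t1 := ht.2.1
  have t2 := ht'.2.1
  have nz : z' ≠ f c' := fun a => by
    subst a; linarith [hsum c', nn fun g => s.P e g ∧ g c' = f c']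
  have wQ := wt_or s.hx (A := s.P e) (B := fun g => (s.P e g ∧ g l = f l) ∨ (s.P e g ∧ g c' = z'))
    (C := fun g => s.P e g ∧ g l ≠ f l ∧ g c' ≠ z') fun g _ a => by tauto
  have wQ1 := wt_or s.hx (A := fun g => (s.P e g ∧ g l = f l) ∨ (s.P e g ∧ g c' = z')) fun _ _ h => h
  have wQ' : ∀ m, (∀ g, s.P e' g → g m ≠ f m → g j ≠ f j ∧ g l ≠ f l) →
      98 / 100 - wt s.x (fun g => s.P e' g ∧ g m = f m) <
        wt s.x fun g => s.P e' g ∧ g j ≠ f j ∧ g l ≠ f l ∧ g c ≠ z := by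
    intro m hm
    have a1 := wt_or s.hx (A := s.P e') (B := fun g => (s.P e' g ∧ g m = f m) ∨ (s.P e' g ∧ g c = z))
      (C := fun g => s.P e' g ∧ g j ≠ f j ∧ g l ≠ f l ∧ g c ≠ z) fun g _ a => by
        have := hm g a; tauto
    have a2 := wt_or s.hx (A := fun g => (s.P e' g ∧ g m = f m) ∨ (s.P e' g ∧ g c = z)) fun _ _ h => h
    linarith [nn fun g => s.NP g ∧ g c = z]
  have hcase : (∀ g, s.P e' g → g l ≠ f l → g j ≠ f j ∧ g l ≠ f l) ∨
      (¬s.cov c' z' ∧ ∀ g, s.P e' g → g j ≠ f j → g j ≠ f j ∧ g l ≠ f l) := by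
    have hα : ¬s.use e' j → ∀ g, s.P e' g → g l ≠ f l → g j ≠ f j ∧ g l ≠ f l := by
      rintro a g ⟨q, hg⟩ b
      exact ⟨h.hj ▸ hg.ne h.he' fun e => a ⟨g, e ▸ hg⟩, b⟩
    rcases hc'.2 with ⟨a, b⟩ | ⟨a, b, -⟩
    · exact Or.inl (hα (b j fun e => nz (by rw [a, ← e, h.hj])))
    rcases tri i j l h.ij h.li h.lj c' with rfl | rfl | rfl
    · refine Or.inr ⟨a, ?_⟩
      rintro g ⟨q, hg⟩ d
      refine ⟨d, fun d' => ?_⟩
      rcases tri c' j l h.ij h.li h.lj q with rfl | rfl | rfl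
      exacts [b ⟨g, hg⟩, d (hg.2.1.trans h.hj.symm), h.unc (d' ▸ cov_of h.he' hg.2.1)]
    · exact Or.inl (hα b)
    · exact Or.inr ⟨a, fun g hg d => ⟨d, hc'.1 g hg ▸ nz⟩⟩
  have lt : ∀ {e g}, e ∈ s.M → s.tight e → s.P e g → T3 s.own g ∧ s.x g ≤ 1 / 100 := by
    rintro e g he ht ⟨q, hg⟩
    exact (priv3 he ht.1 hg.1.1 hg.priv).imp_right fun a => a.trans ht.2.2.le
  have wB : 2 / 100 < wt s.x fun g => s.P e' g ∧ g j ≠ f j ∧ g l ≠ f l ∧ g c ≠ z := by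
    rcases hcase with a | a
    · linarith [wQ' l a, hsum l, nn fun g => s.P e g ∧ g l = f l]
    · linarith [wQ' j a.2, hsum j, nn fun g => s.P e g ∧ g j = f j]
  have wA : 98 / 100 - wt s.x (fun g => s.P e g ∧ g l = f l) <
      wt s.x fun g => s.P e g ∧ g l ≠ f l ∧ g c' ≠ z' := by linarith [nn fun g => s.NP g ∧ g c' = z']
  have wA' : 2 / 100 < wt s.x fun g => s.P e g ∧ g l ≠ f l ∧ g c' ≠ z' := by
    linarith [hsum l, nn fun g => s.P e' g ∧ g l = f l]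
  obtain ⟨m, v, m1, m2, m3, m4⟩ := cross s.hx (r := 1 / 100) (c := c) (c' := c') (z := z) (z' := z')
    (A := fun g => s.P e g ∧ g l ≠ f l ∧ g c' ≠ z')
    (B := fun g => s.P e' g ∧ g j ≠ f j ∧ g l ≠ f l ∧ g c ≠ z) (by norm_num)
    (fun g a => ⟨hc.1 g a.1, (lt h.he ht a.1).2⟩) (fun g a => ⟨hc'.1 g a.1, (lt h.he' ht' a.1).2⟩)
    (by
      rintro g g' ⟨⟨q, a1⟩, a2, a3⟩ ⟨⟨q', b1⟩, b2, b3, b4⟩
      have g3 := (lt h.he ht ⟨q, a1⟩).1
      have : Cf s.own g g' := by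
        by_contra hc
        have := sw23 h a1 b1 (h.nocf a1 (fun e => hu ⟨g, e ▸ a1⟩) a2 hf.noSS)
          (h.symm.nocf b1 (fun e => b2 (by subst e; rw [b1.2.1, h.hj])) b3 hf.noSS) hc
        rw [hf.pri, g3.pri, (lt h.he' ht' ⟨q', b1⟩).1.pri, ht.1.pri, ht'.1.pri] at this
        norm_num at this
      obtain ⟨m, hm⟩ := this.resolve_right g3.noSS
      refine ⟨m, ?_, ?_, hm⟩ <;> rintro rfl
      exacts [b4 (hm ▸ hc.1 g ⟨q, a1⟩), a3 (hm ▸ hc'.1 g' ⟨q', b1⟩)])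
    (by linarith) (by linarith)
  rcases hcase with a | a
  · have := (wt_disj s.hx (fun g _ => m3 g) (fun g _ => m4 g)
      fun g _ a b => a.1.excl h.he h.he' h.ne b.1).trans (s.load m v)
    linarith [wQ' l a, hsum l]
  · obtain ⟨g0, ⟨q0, a1⟩, a2⟩ := ex_of_pos s.hx (A := fun g => s.P e g ∧ g l ≠ f l ∧ g c' ≠ z')
      (by linarith)
    obtain ⟨g1, g2, b1, b2, b3⟩ := two_of_lt s.hx (r := 1 / 100) (by norm_num)
      (A := fun g => s.P e' g ∧ g j ≠ f j ∧ g l ≠ f l ∧ g c ≠ z) (by linarith)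
      fun g a => (lt h.he' ht' a.1).2
    obtain ⟨k, k1, k2⟩ := third c' m m2.symm
    have port : ∀ g, s.P e' g ∧ g j ≠ f j ∧ g l ≠ f l ∧ g c ≠ z → g k = e' k := by
      rintro g ⟨⟨q, b⟩, b'⟩
      rcases tri c' m k m2.symm k1 k2 q with rfl | rfl | rfl
      · exact absurd (hc'.1 g ⟨_, b⟩ ▸ cov_of h.he' b.2.1) a.1
      · exact absurd (((m3 g0 ⟨⟨q0, a1⟩, a2⟩).trans (m4 g ⟨⟨_, b⟩, b'⟩).symm).trans b.2.1)
          (a1.ne' h.he h.he' h.ne _)
      · exact b.2.1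
    refine b3 (funext fun r => ?_)
    rcases tri c' m k m2.symm k1 k2 r with rfl | rfl | rfl
    exacts [(hc'.1 _ b1.1).trans (hc'.1 _ b2.1).symm, (m4 _ b1).trans (m4 _ b2).symm,
      (port _ b1).trans (port _ b2).symm]

end Sys

end

end Pool.Agent.MP_4b8552_co.H92
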