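import Pool.Agent.MP_4b8552_co.H92.Local

/-! Exchange facts at members with two ports. -/

namespace Pool.Agent.MP_4b8552_co.H92

open Finset
open scoped Classical

noncomputable section

variable {V G : Type} [Fintype V]

namespace Sys
variable {s : Sys V G} {e e' f g : Ed V} {i j l p q c : Fin 3}

variable (s) in
def hh (e : Ed V) (i : Fin 3) : ℝ := wt s.x fun f => TH s.own s.ex f ∧ s.P1 e i f

variable (s) in
def par (e : Ed V) (p q : Fin 3) (f : Ed V) : Prop :=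
  s.Rm f ∧ TH s.own s.ex f ∧ f p = e p ∧ f q = e q

lemma ports (he : e ∈ s.M) (h : T2 s.own e) :
    ∃ c, (∀ f, s.Rem f → f c ≠ e c) ∧ (∀ j ≠ c, s.own j (e j) = none) ∧ s.hh e c = 0 := by
  obtain ⟨c, a, h1, h2⟩ := h
  have h3 : ∀ f, s.Rem f → f c ≠ e c := fun f hf h => hf.2 e he ⟨c, c, a, h ▸ h1, h1⟩
  exact ⟨c, h3, h2, wt_zero s.hx fun f _ h => h3 f h.2.1.1 h.2.2.1⟩

lemma port2 (he : e ∈ s.M) (h : T2 s.own e) (hf : s.Rem f) (hi : f i = e i) :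
    ∃ q, i ≠ q ∧ ∑ j, s.hh e j = s.hh e i + s.hh e q := by
  obtain ⟨c, h1, -, h2⟩ := ports he h
  have h3 : i ≠ c := fun a => h1 f hf (a ▸ hi)
  obtain ⟨q, h4, h5⟩ := third i c h3
  exact ⟨q, h4.symm, by rw [sum3 h4.symm h3.symm h5.symm, h2, add_zero]⟩

lemma oneU (he : e ∈ s.M) (hH : TH s.own s.ex g) (hg : s.P1 e q g) {m m' : Fin 3}
    (h1 : s.own m (g m) = none) (h2 : ¬s.cov m (g m)) (h3 : s.own m' (g m') = none)
    (h4 : ¬s.cov m' (g m')) : m = m' := by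
  obtain ⟨k, a, h5, -⟩ := hH
  have h6 := cov_of he hg.2.1
  have h7 := hg.1.1.cov_R h6
  refine third_eq q k m m' ?_ ?_ ?_ ?_ ?_ <;> rintro rfl <;> simp_all

lemma comU {q' : Fin 3} {g' : Ed V} (he : e ∈ s.M) (he' : e' ∈ s.M) (hg : s.P1 e q g)
    (hg' : s.P1 e' q' g') (hne : e = e' → q ≠ q') (hc : Cf s.own g g') (hs : ¬SS s.own g g') :
    ∃ m, g m = g' m ∧ s.own m (g m) = none ∧ ¬s.cov m (g m) := by
  obtain ⟨m, hm⟩ := hc.resolve_right hs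
  refine ⟨m, hm, ?_, fun h => ?_⟩
  · rcases h : s.own m (g m) with _ | a
    exacts [rfl, absurd ⟨m, m, a, h, hm ▸ h⟩ hs]
  · obtain rfl : m = q := by by_contra a; exact hg.2.2 m a h
    obtain rfl : m = q' := by by_contra a; exact hg'.2.2 m a (hm ▸ h)
    exact hne (s.uniq he he' (hg.2.1.symm.trans (hm.trans hg'.2.1))) rfl

lemma h22 (h : s.Sp f e i e' j l) (hH : TH s.own s.ex f) (h2 : T2 s.own e) (h2' : T2 s.own e')
    (a1 : 1 / 4 < ∑ k, s.hh e k - s.hh e i) (a2 : 4 / 5 ≤ ∑ k, s.hh e k)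
    (a3 : 1 / 4 < ∑ k, s.hh e' k - s.hh e' j) : False := by
  obtain ⟨q, hq, b1⟩ := port2 h.he h2 h.rm.1 h.hi
  obtain ⟨q', hq', b2⟩ := port2 h.he' h2' h.rm.1 h.hj
  rw [b1] at a1 a2; rw [b2] at a3
  have ss := fun g (hg : TH s.own s.ex g) => (s.wt_SS g).2.2.2 hg
  have wA := wt_diff s.hx (fun g => TH s.own s.ex g ∧ s.P1 e q g) fun g => SS s.own g f
  have wB := wt_diff s.hx (fun g => TH s.own s.ex g ∧ s.P1 e' q' g) fun g => SS s.own g f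
  have cf : ∀ g g', (TH s.own s.ex g ∧ s.P1 e q g) ∧ ¬SS s.own g f →
      (TH s.own s.ex g' ∧ s.P1 e' q' g') ∧ ¬SS s.own g' f → Cf s.own g g' := by
    rintro g g' ⟨⟨c1, c2⟩, c3⟩ ⟨⟨d1, d2⟩, d3⟩
    by_contra hc
    have := sw23 h c2 d2 (h.nocf' hH.t2 c2 hq.symm fun a => c3 a.symm)
      (h.symm.nocf' hH.t2 d2 hq'.symm fun a => d3 a.symm) hc
    linarith [hH.pri, c1.pri, d1.pri, (h2.pri (ex := s.ex)).2, (h2'.pri (ex := s.ex)).2]
  unfold hh at a1 a2 a3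
  have sf := ss f hH
  obtain ⟨g0, h0⟩ := ex_of_pos s.hx
    (A := fun g => (TH s.own s.ex g ∧ s.P1 e q g) ∧ ¬SS s.own g f) (by linarith)
  have s0 := ss g0 h0.1.1
  obtain ⟨g1, h1, h1'⟩ := ex_of_lt s.hx (B := fun g => SS s.own g g0)
    (A := fun g => (TH s.own s.ex g ∧ s.P1 e' q' g) ∧ ¬SS s.own g f) (by linarith)
  have s1 := ss g1 h1.1.1
  obtain ⟨m, m1, m2, m3⟩ := comU h.he h.he' h0.1.2 h1.1.2 (fun a => absurd a h.ne) (cf _ _ h0 h1)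
    fun a => h1' a.symm
  have c1 := wt_or s.hx (A := fun g => (TH s.own s.ex g ∧ s.P1 e' q' g) ∧ ¬SS s.own g f)
    (B := fun g => s.P1 e' q' g ∧ g m = g0 m) (C := fun g => SS s.own g g0) (by
    intro g _ hg
    refine or_iff_not_imp_right.2 fun a => ⟨hg.1.2, ?_⟩
    obtain ⟨m', n1, n2, n3⟩ := comU h.he h.he' h0.1.2 hg.1.2 (fun a => absurd a h.ne)
      (cf _ _ h0 hg) fun b => a b.symm
    rw [oneU h.he h0.1.1 h0.1.2 m2 m3 n2 n3, n1])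
  have c2 := wt_or s.hx (A := fun g => (TH s.own s.ex g ∧ s.P1 e q g) ∧ ¬SS s.own g f)
    (B := fun g => s.P1 e q g ∧ g m = g0 m) (C := fun g => SS s.own g g1) (by
    intro g _ hg
    refine or_iff_not_imp_right.2 fun a => ⟨hg.1.2, ?_⟩
    obtain ⟨m', n1, n2, n3⟩ := comU h.he h.he' hg.1.2 h1.1.2 (fun a => absurd a h.ne)
      (cf _ _ hg h1) a
    rw [m1] at m2 m3 ⊢
    rw [n1] at n2 n3
    rw [oneU h.he' h1.1.1 h1.1.2 m2 m3 n2 n3, n1])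
  have c3 := wt_or s.hx (A := fun g => TH s.own s.ex g ∧ s.P1 e i g)
    (B := fun g => s.P1 e i g ∧ g m = g0 m) (C := fun g => SS s.own g g0) (by
    intro g _ hg
    refine or_iff_not_imp_right.2 fun a => ⟨hg.2, ?_⟩
    obtain ⟨m', n1, n2, n3⟩ := comU h.he h.he h0.1.2 hg.2 (fun _ => hq.symm)
      (privCf h.he (Or.inr h2) h0.1.2.1.1 h0.1.2.priv hg.2.1.1 hg.2.priv) fun b => a b.symm
    rw [oneU h.he h0.1.1 h0.1.2 m2 m3 n2 n3, n1])
  have c4 := (wt_disj3 s.hx (A := fun g => s.P1 e' q' g ∧ g m = g0 m)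
    (B := fun g => s.P1 e q g ∧ g m = g0 m) (C := fun g => s.P1 e i g ∧ g m = g0 m)
    (fun _ _ h => h.2) (fun _ _ h => h.2) (fun _ _ h => h.2)
    (fun _ _ a b => P.excl ⟨_, b.1⟩ h.he h.he' h.ne ⟨_, a.1⟩)
    (fun _ _ a b => P.excl ⟨_, b.1⟩ h.he h.he' h.ne ⟨_, a.1⟩)
    fun _ _ a b => hq (b.1.excl h.he a.1)).trans (s.load m (g0 m))
  linarith

lemma noHX (h2 : T2 s.own e) (hq : q ≠ p) (h : 1 / 10 ^ 6 < s.hh e q) : wt s.x (s.HX e p) = 0 := by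
  refine wt_zero s.hx ?_
  rintro f - ⟨e', j, l, hf, hH, h3⟩
  obtain ⟨g, hg, hs⟩ := ex_of_lt s.hx (((s.wt_SS f).2.2.2 hH).trans_lt h)
  have := sw22 hf hg.2 (hf.nocf' hH.t2 hg.2 hq fun a => hs a.symm)
  linarith [hH.pri, hg.1.pri, (h2.pri (ex := s.ex)).2, h3.pri (ex := s.ex)]

lemma twos (he : e ∈ s.M) (h1 : p ≠ q) (h2 : c ≠ p) (h3 : c ≠ q) (hf : s.P1 e p f) (hg : s.P1 e q g)
    (h : f c = g c) {A B : Ed V → Prop} (hA : ∀ a, A a → s.P1 e p a) (hB : ∀ a, B a → s.P1 e q a) :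
    wt s.x A + wt s.x B ≤ wt s.x (fun a => (A a ∨ B a) ∧ a c = f c) +
      wt s.x (fun a => SS s.own a g) + wt s.x fun a => SS s.own a f := by
  have a1 := wt_or s.hx (A := A) (B := fun a => A a ∧ a c = f c) (C := fun a => SS s.own a g)
    fun a _ ha => (meet2 he (hA a ha) hg h1 h2 h3).imp_left fun b => ⟨ha, b.trans h.symm⟩
  have a2 := wt_or s.hx (A := B) (B := fun a => B a ∧ a c = f c) (C := fun a => SS s.own a f)
    fun a _ ha => (meet2 he (hB a ha) hf h1.symm h3 h2).imp_left fun b => ⟨ha, b⟩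
  have a3 := wt_disj s.hx (A := fun a => A a ∧ a c = f c) (B := fun a => B a ∧ a c = f c)
    (C := fun a => (A a ∨ B a) ∧ a c = f c) (fun _ _ h => ⟨Or.inl h.1, h.2⟩)
    (fun _ _ h => ⟨Or.inr h.1, h.2⟩) fun a _ b d => h1 ((hA a b.1).excl he (hB a d.1))
  linarith

lemma Rm.wt_SS (h : s.Rm f) : wt s.x (fun a => SS s.own a f) ≤ 1 / 250 :=
  h.type.elim (fun a => ((s.wt_SS f).2.1 a).trans (by norm_num)) (s.wt_SS f).2.2.1

lemma P1_load (e : Ed V) (p : Fin 3) : wt s.x (s.P1 e p) ≤ 1 :=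
  (wt_mono s.hx fun _ _ h => h.2.1).trans (s.load p (e p))

lemma F2 (he : e ∈ s.M) (h1 : p ≠ q) (h2 : c ≠ p) (h3 : c ≠ q) :
    wt s.x (s.P1 e p) + wt s.x (s.P1 e q) ≤ 1 + 2 / 250 := by
  have a1 := P1_load (s := s) e p
  have a2 := P1_load (s := s) e q
  by_cases h4 : ∃ g, s.P1 e q g
  swap
  · rw [wt_zero s.hx (A := s.P1 e q) fun g _ h => h4 ⟨g, h⟩]; linarith
  obtain ⟨g, hg⟩ := h4
  by_cases h5 : ∃ f, s.P1 e p f ∧ f c = g c
  · obtain ⟨f, hf, h⟩ := h5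
    have a3 := twos he h1 h2 h3 hf hg h (fun _ h => h) fun _ h => h
    have a4 := (wt_mono s.hx (A := fun a => (s.P1 e p a ∨ s.P1 e q a) ∧ a c = f c)
      fun _ _ h => h.2).trans (s.load c (f c))
    linarith [hf.1.wt_SS, hg.1.wt_SS]
  · have a3 := wt_mono s.hx (A := s.P1 e p) (B := fun a => SS s.own a g) fun a _ ha =>
      (meet2 he ha hg h1 h2 h3).resolve_left fun b => h5 ⟨a, ha, b⟩
    linarith [hg.1.wt_SS]

lemma F3 (he : e ∈ s.M) (h1 : p ≠ q) (h2 : c ≠ p) (h3 : c ≠ q) (hR : ∀ j ≠ c, s.own j (e j) = none)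
    (hp : 1 / 10 ^ 6 < s.hh e p) (hq : 1 / 10 ^ 6 < s.hh e q) :
    wt s.x (s.P1 e p) + wt s.x (s.P1 e q) ≤ 1 + 2 / 10 ^ 6 ∧
      s.hh e p + s.hh e q + wt s.x (s.par e p q) ≤ 3 / 2 - 1 / 500 + 2 / 10 ^ 6 := by
  obtain ⟨f, hf⟩ := ex_of_pos s.hx (lt_trans (by norm_num) hp)
  have a1 := (s.wt_SS f).2.2.2 hf.1
  obtain ⟨g, hg, hs⟩ := ex_of_lt s.hx (a1.trans_lt hq)
  have a2 := (s.wt_SS g).2.2.2 hg.1
  have h := (meet2 he hf.2 hg.2 h1 h2 h3).resolve_right fun a => hs a.symm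
  have a3 := twos he h1 h2 h3 hf.2 hg.2 h (fun _ h => h) fun _ h => h
  have a4 := (wt_mono s.hx (A := fun a => (s.P1 e p a ∨ s.P1 e q a) ∧ a c = f c)
    fun _ _ h => h.2).trans (s.load c (f c))
  have a5 := twos he h1 h2 h3 hf.2 hg.2 h (A := fun a => TH s.own s.ex a ∧ s.P1 e p a)
    (B := fun a => TH s.own s.ex a ∧ s.P1 e q a) (fun _ h => h.2) fun _ h => h.2
  have a6 := s.NT (Function.update e c (f c)) (by
    intro k
    rcases eq_or_ne k c with rfl | hk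
    · rw [Function.update_self]
      rcases a : s.own k (f k) with _ | a'
      exacts [rfl, absurd ⟨k, k, a', h ▸ a, a⟩ hs]
    · rw [Function.update_of_ne hk]; exact hR k hk)
  have a7 := (wt_disj s.hx (A := fun a => ((TH s.own s.ex a ∧ s.P1 e p a) ∨
    (TH s.own s.ex a ∧ s.P1 e q a)) ∧ a c = f c) (B := s.par e p q) ?_ ?_ ?_).trans a6
  · unfold hh; constructor <;> linarith
  · rintro a - ⟨⟨b1, b2⟩ | ⟨b1, b2⟩, b3⟩
    · refine ⟨b1, q, fun k hk => ?_⟩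
      rcases tri p q c h1 h2 h3 k with rfl | rfl | rfl
      exacts [by rw [Function.update_of_ne h2.symm, b2.2.1], absurd rfl hk, by simp [b3]]
    · refine ⟨b1, p, fun k hk => ?_⟩
      rcases tri p q c h1 h2 h3 k with rfl | rfl | rfl
      exacts [absurd rfl hk, by rw [Function.update_of_ne h3.symm, b2.2.1], by simp [b3]]
  · rintro a - ⟨-, b1, b2, b3⟩
    refine ⟨b1, c, fun k hk => ?_⟩
    rw [Function.update_of_ne hk]
    rcases tri p q c h1 h2 h3 k with rfl | rfl | rfl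
    exacts [b2, b3, absurd rfl hk]
  · rintro a - ⟨⟨b1, b2⟩ | ⟨b1, b2⟩, b3⟩ ⟨-, -, b4, b5⟩
    exacts [b2.ne he h1.symm b5, b2.ne he h1 b4]

lemma port_load (he : e ∈ s.M) (h1 : p ≠ q) :
    wt s.x (s.P1 e p) + wt s.x (s.HX e p) + wt s.x (s.par e p q) ≤ 1 := by
  refine (wt_disj3 s.hx (fun _ _ h => h.2.1) (fun _ _ ⟨_, _, _, h, _⟩ => h.hi)
    (fun _ _ h => h.2.2.1) (fun _ _ a ⟨_, _, _, h, _⟩ => h.notP a)
    (fun _ _ a b => a.ne he h1.symm b.2.2.2) ?_).trans (s.load p (e p))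
  rintro f - ⟨e', j, l, h, -⟩ b
  rcases h.nbr he b.2.2.2 with a | a
  exacts [h1 a.2.symm, h.ne a.1]

end Sys

end

end Pool.Agent.MP_4b8552_co.H92
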